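import Mathlib

/-! Algebraic form of Sard's lemma: on the critical set of `(N, q)` the two polynomials satisfy a
nontrivial algebraic relation. -/

namespace Pool.Agent.Lib.MP_d59d86_an

open Polynomial

theorem exists_deform {K : Type} [Field K] [Algebra ℝ K] [Algebra.EssFiniteType ℝ K] (a b : K)
    (h : ∀ G : Polynomial (Polynomial ℝ), aevalAeval b a G = 0 → G = 0) :
    ∃ φ : K →ₐ[ℝ] DualNumber K, (∀ x, (φ x).fst = x) ∧ (φ a).snd = 0 ∧ (φ b).snd = 1 := by
  let A := Polynomial (Polynomial ℝ)
  let f : A →ₐ[ℝ] K := aevalAeval b a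
  have hf : Function.Injective f := (injective_iff_map_eq_zero f).2 h
  let : Algebra A K := f.toRingHom.toAlgebra
  have : IsScalarTower ℝ A K := IsScalarTower.of_algebraMap_eq (fun r => (f.commutes r).symm)
  have : FaithfulSMul A K := (faithfulSMul_iff_algebraMap_injective A K).2 hf
  let F := FractionRing A
  let : Algebra F K := FractionRing.liftAlgebra A K
  have : IsScalarTower A F K := FractionRing.isScalarTower_liftAlgebra A K
  have : IsScalarTower ℝ F K := IsScalarTower.of_algebraMap_eq (fun r => by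
    rw [IsScalarTower.algebraMap_apply ℝ A F, ← IsScalarTower.algebraMap_apply A F K,
      ← IsScalarTower.algebraMap_apply ℝ A K])
  have : Algebra.EssFiniteType F K := Algebra.EssFiniteType.of_comp ℝ F K
  have : CharZero F := algebraRat.charZero F
  have : Algebra.FormallySmooth F K := inferInstance
  have : Algebra.FormallySmooth A F := Algebra.FormallySmooth.of_isLocalization (nonZeroDivisors A)
  have : Algebra.FormallySmooth A K := Algebra.FormallySmooth.comp A F K
  let g : A →ₐ[ℝ] DualNumber K :=
    aevalAeval (TrivSqZeroExt.inl b + DualNumber.eps) (TrivSqZeroExt.inl a)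
  let alg : Algebra A (DualNumber K) := g.toRingHom.toAlgebra
  have hfg : (TrivSqZeroExt.fstHom ℝ K K).comp g = f := by
    apply Polynomial.algHom_ext'
    · apply Polynomial.algHom_ext
      simp [g, f]
    · simp [g, f]
  let π : DualNumber K →ₐ[A] K :=
    { (TrivSqZeroExt.fstHom ℝ K K).toRingHom with
      commutes' := fun r => by
        have := congrArg (fun ψ => ψ r) hfg
        exact this }
  have hπ : ∀ z, π z = z.fst := fun z => rfl
  have hsurj : Function.Surjective π := fun x => ⟨TrivSqZeroExt.inl x, by simp [hπ]⟩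
  have hnil : IsNilpotent (RingHom.ker (π : DualNumber K →+* K)) := by
    refine ⟨2, ?_⟩
    have h2 : RingHom.ker (π : DualNumber K →+* K) ^ 2
        = RingHom.ker (π : DualNumber K →+* K) * RingHom.ker (π : DualNumber K →+* K) :=
      pow_two _
    rw [h2, Ideal.zero_eq_bot, eq_bot_iff, Ideal.mul_le]
    intro r hr s hs
    have hr' : r.fst = 0 := hr
    have hs' : s.fst = 0 := hs
    rw [Ideal.mem_bot]
    ext <;> simp [hr', hs']
  let φ := Algebra.FormallySmooth.liftOfSurjective (AlgHom.id A K) π hsurj hnil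
  have hφ : ∀ x, (φ x).fst = x := fun x =>
    Algebra.FormallySmooth.liftOfSurjective_apply (AlgHom.id A K) π hsurj hnil x
  have hφA : ∀ r : A, φ (f r) = g r := fun r => φ.commutes r
  refine ⟨{ φ.toRingHom with commutes' := fun r => ?_ }, hφ, ?_, ?_⟩
  · have := hφA (algebraMap ℝ A r)
    rw [f.commutes, g.commutes] at this
    exact this
  · have := hφA X
    have h1 : f X = a := aevalAeval_Y _ _
    have h2 : g X = TrivSqZeroExt.inl a := aevalAeval_Y _ _
    rw [h1, h2] at this
    change (φ a).snd = 0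
    rw [this]; simp
  · have := hφA (C X)
    have h1 : f (C X) = b := aevalAeval_X _ _
    have h2 : g (C X) = TrivSqZeroExt.inl b + DualNumber.eps := aevalAeval_X _ _
    rw [h1, h2] at this
    change (φ b).snd = 1
    rw [this]; simp

theorem snd_aeval {σ : Type} [Fintype σ] [DecidableEq σ] {K : Type} [CommRing K] [Algebra ℝ K]
    (ψ : MvPolynomial σ ℝ →ₐ[ℝ] DualNumber K) (ι : MvPolynomial σ ℝ →ₐ[ℝ] K)
    (h : ∀ f, (ψ f).fst = ι f) (f : MvPolynomial σ ℝ) :
    (ψ f).snd = ∑ i, ι (MvPolynomial.pderiv i f) * (ψ (MvPolynomial.X i)).snd := by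
  induction f using MvPolynomial.induction_on with
  | C r =>
    have : ψ (MvPolynomial.C r) = algebraMap ℝ _ r := ψ.commutes r
    rw [this]
    simp [TrivSqZeroExt.algebraMap_eq_inl']
  | add p q hp hq => simp [hp, hq, add_mul, Finset.sum_add_distrib]
  | mul_X p j hp =>
    rw [map_mul, TrivSqZeroExt.snd_mul, hp, h, h]
    simp only [Derivation.leibniz, MvPolynomial.pderiv_X, smul_eq_mul, map_add, map_mul, add_mul,
      Finset.sum_add_distrib, MulOpposite.smul_eq_mul_unop, MulOpposite.unop_op, Finset.sum_mul]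
    congr 1
    · rw [Finset.sum_eq_single j]
      · simp
      · intro i _ hij
        simp [Pi.single_apply, Ne.symm hij]
      · simp
    · refine Finset.sum_congr rfl fun i _ => by ring

/-- The algebraic Sard lemma. -/
theorem exists_relation {n : ℕ} (q : MvPolynomial (Fin n) ℝ) :
    ∃ G : Polynomial (Polynomial ℝ), G ≠ 0 ∧ ∀ x : Fin n → ℝ,
      (∀ i j, x i * MvPolynomial.eval x (MvPolynomial.pderiv j q)
        = x j * MvPolynomial.eval x (MvPolynomial.pderiv i q)) →
      evalEval (MvPolynomial.eval x q) (∑ i, x i ^ 2) G = 0 := by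
  classical
  let R := MvPolynomial (Fin n) ℝ
  let N : R := ∑ i, MvPolynomial.X i ^ 2
  let I : Ideal R := Ideal.span (Set.range fun ij : Fin n × Fin n =>
    MvPolynomial.X ij.1 * MvPolynomial.pderiv ij.2 q - MvPolynomial.X ij.2 * MvPolynomial.pderiv ij.1 q)
  let e : Polynomial (Polynomial ℝ) →ₐ[ℝ] R := aevalAeval q N
  let S : Submonoid R := (nonZeroDivisors (Polynomial (Polynomial ℝ))).map e
  by_cases hd : Disjoint (I : Set R) S
  · exfalso
    obtain ⟨P, hP, hIP, hPS⟩ := Ideal.exists_le_prime_disjoint I S hd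
    let K := FractionRing (R ⧸ P)
    let ι : R →ₐ[ℝ] K := (IsScalarTower.toAlgHom ℝ (R ⧸ P) K).comp (Ideal.Quotient.mkₐ ℝ P)
    have hι : ∀ f, ι f = 0 ↔ f ∈ P := fun f => by
      change algebraMap (R ⧸ P) K (Ideal.Quotient.mk P f) = 0 ↔ _
      rw [FaithfulSMul.algebraMap_eq_zero_iff, Ideal.Quotient.eq_zero_iff_mem]
    have : Algebra.EssFiniteType (R ⧸ P) K :=
      Algebra.EssFiniteType.of_isLocalization K (nonZeroDivisors (R ⧸ P))
    have : Algebra.EssFiniteType ℝ K := Algebra.EssFiniteType.comp ℝ (R ⧸ P) K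
    have hcomp : ι.comp e = aevalAeval (ι q) (ι N) := by
      apply Polynomial.algHom_ext'
      · apply Polynomial.algHom_ext
        simp [e]
      · simp [e]
    have hind : ∀ G : Polynomial (Polynomial ℝ), aevalAeval (ι q) (ι N) G = 0 → G = 0 := by
      intro G hG
      by_contra hG0
      rw [← hcomp, AlgHom.comp_apply, hι] at hG
      exact Set.disjoint_left.1 hPS hG ⟨G, mem_nonZeroDivisors_of_ne_zero hG0, rfl⟩
    obtain ⟨φ, h1, h2, h3⟩ := exists_deform (ι N) (ι q) hind
    have key := snd_aeval (φ.comp ι) ι (fun f => h1 _)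
    set d : Fin n → K := fun i => ((φ.comp ι) (MvPolynomial.X i)).snd with hd'
    have k1 : ∑ i, ι (MvPolynomial.pderiv i q) * d i = 1 := by rw [← key q]; exact h3
    have k2 : ∑ i, ι (MvPolynomial.X i) * d i = 0 := by
      have := key N
      rw [show ((φ.comp ι) N).snd = 0 from h2] at this
      have h4 : ∀ i, MvPolynomial.pderiv i N = 2 * MvPolynomial.X i := fun i => by
        simp only [N, map_sum, Derivation.leibniz_pow, MvPolynomial.pderiv_X]
        rw [Finset.sum_eq_single i]
        · simp
        · intro j _ hij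
          simp [Pi.single_apply, hij]
        · simp
      simp only [h4, map_mul, map_ofNat, mul_assoc, ← Finset.mul_sum] at this
      have hch : CharZero K := algebraRat.charZero K
      rcases mul_eq_zero.1 this.symm with h | h
      · exact absurd h two_ne_zero
      · exact h
    have k3 : ∀ i j, ι (MvPolynomial.X i) * ι (MvPolynomial.pderiv j q)
        = ι (MvPolynomial.X j) * ι (MvPolynomial.pderiv i q) := fun i j => by
      rw [← sub_eq_zero, ← map_mul, ← map_mul, ← map_sub, hι]
      exact hIP (Ideal.subset_span ⟨(i, j), rfl⟩)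
    have k4 : ∀ i, ι (MvPolynomial.X i) = 0 := fun i => by
      calc ι (MvPolynomial.X i) = ι (MvPolynomial.X i) * ∑ j, ι (MvPolynomial.pderiv j q) * d j := by
            rw [k1, mul_one]
        _ = ι (MvPolynomial.pderiv i q) * ∑ j, ι (MvPolynomial.X j) * d j := by
            rw [Finset.mul_sum, Finset.mul_sum]
            refine Finset.sum_congr rfl fun j _ => ?_
            rw [← mul_assoc, k3 i j]; ring
        _ = 0 := by rw [k2, mul_zero]
    have k5 : ι N = 0 := by simp [N, map_sum, k4]
    have := hind X (by simp [k5])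
    exact X_ne_zero this
  · rw [Set.not_disjoint_iff] at hd
    obtain ⟨_, hI, G, hG, rfl⟩ := hd
    refine ⟨G, nonZeroDivisors.ne_zero hG, fun x hx => ?_⟩
    have h0 : I ≤ RingHom.ker (MvPolynomial.aeval x : R →ₐ[ℝ] ℝ) := by
      rw [Ideal.span_le]
      rintro _ ⟨⟨i, j⟩, rfl⟩
      have := sub_eq_zero.2 (hx i j)
      change MvPolynomial.eval x _ = 0
      simpa using this
    have h1 : (MvPolynomial.aeval x : R →ₐ[ℝ] ℝ) (e G) = 0 := h0 hI
    have hcomp : (MvPolynomial.aeval x : R →ₐ[ℝ] ℝ).comp e
        = aevalAeval (MvPolynomial.eval x q) (∑ i, x i ^ 2) := by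
      apply Polynomial.algHom_ext'
      · apply Polynomial.algHom_ext
        simp [e, MvPolynomial.coe_aeval_eq_eval]
      · rw [AlgHom.comp_apply, show e X = N from aevalAeval_Y _ _, aevalAeval_Y]
        change MvPolynomial.eval x (∑ i, MvPolynomial.X i ^ 2) = _
        simp
    rw [← AlgHom.comp_apply, hcomp, coe_aevalAeval_eq_evalEval] at h1
    exact h1

end Pool.Agent.Lib.MP_d59d86_an
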