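import Mathlib

/-! Definitions for the singular Q-curvature equation `(-Δ)^{n/2} u = e^{n u} |x|^{n α}`. -/

namespace Pool.Agent.Lib.MP_d59d86_an

open MeasureTheory FourierTransform Laplacian SchwartzMap ContDiff

/-- Euclidean space of dimension `n`. -/
abbrev E (n : ℕ) : Type := EuclideanSpace ℝ (Fin n)

/-- The volume `|S^n|` of the unit `n`-sphere in `ℝ^{n+1}`: total mass of the surface measure. -/
noncomputable def sphereVol (n : ℕ) : ℝ :=
  (volume : Measure (E (n + 1))).toSphere.real Set.univ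

/-- `Λ₁ = (n-1)! |S^n|`. -/
noncomputable def lambdaOne (n : ℕ) : ℝ := ((n - 1).factorial : ℝ) * sphereVol n

/-- The value of a real polynomial in `n` variables at a point of `ℝ^n`. -/
noncomputable def pev {n : ℕ} (p : MvPolynomial (Fin n) ℝ) (x : E n) : ℝ :=
  MvPolynomial.eval (fun i => x i) p

/-- The right-hand side `e^{n u(x)} |x|^{n α}`. -/
noncomputable def rhs (n : ℕ) (α : ℝ) (u : E n → ℝ) (x : E n) : ℝ :=
  Real.exp (n * u x) * ‖x‖ ^ (n * α)

/-- The iterated Laplacian `(-Δ)^k φ` of a real function. -/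
noncomputable def polyLap {n : ℕ} (k : ℕ) (φ : E n → ℝ) : E n → ℝ :=
  (fun f : E n → ℝ => fun x => -(Δ f) x)^[k] φ

/-- `(-Δ)^{n/2} φ` as a Fourier multiplier. With the convention
`𝓕 f ξ = ∫ e^{-2πi⟨x,ξ⟩} f x` the symbol of `(-Δ)^{1/2}` is `2π‖ξ‖`. -/
noncomputable def fracLap {n : ℕ} (φ : 𝓢(E n, ℂ)) : E n → ℂ :=
  𝓕⁻ (fun ξ : E n => (((2 * Real.pi * ‖ξ‖) ^ n : ℝ) : ℂ) * 𝓕 (φ : E n → ℂ) ξ)

/-- Weak solutions of `(-Δ)^{n/2} u = e^{n u} |x|^{n α}` with finite total Q-curvature. -/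
structure IsWeakSol (n : ℕ) (α : ℝ) (u : E n → ℝ) : Prop where
  locInt : LocallyIntegrable u volume
  finite : Integrable (rhs n α u) volume
  even : Even n → ∀ φ : E n → ℝ, ContDiff ℝ ∞ φ → HasCompactSupport φ →
    Integrable (fun x => u x * polyLap (n / 2) φ x) volume ∧
    ∫ x, u x * polyLap (n / 2) φ x = ∫ x, rhs n α u x * φ x
  odd_growth : Odd n → Integrable (fun x => |u x| / (1 + ‖x‖ ^ (2 * n))) volume
  odd : Odd n → ∀ φ : 𝓢(E n, ℂ),
    Integrable (fun x => (u x : ℂ) * fracLap φ x) volume ∧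
    ∫ x, (u x : ℂ) * fracLap φ x = ∫ x, (rhs n α u x : ℂ) * φ x

end Pool.Agent.Lib.MP_d59d86_an
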