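import Mathlib

/-! Abstract free-energy setting: potentials of bounded densities. -/

namespace Pool.Agent.Lib.MP_d59d86_an

open MeasureTheory Filter Topology

variable {X : Type} [MeasurableSpace X]

/-- Hypotheses on a symmetric kernel. -/
structure Ker (μ : Measure X) (L : X → X → ℝ) (l : X → ℝ) (b A : ℝ) : Prop where
  measL : Measurable (Function.uncurry L)
  symm : ∀ x y, L x y = L y x
  measl : Measurable l
  l_nonneg : ∀ x, 0 ≤ l x
  L_le : ∀ x y, L x y ≤ l x + l y
  b_pos : 0 < b
  int_exp : ∀ x, Integrable (fun y => Real.exp (-b * L x y)) μ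
  bound : ∀ x, ∫ y, Real.exp (-b * L x y) ∂μ ≤ A
  int_l : Integrable (fun x => Real.exp (l x)) μ

/-- Bounded measurable functions. -/
structure Bd (M : ℝ) (f : X → ℝ) : Prop where
  meas : Measurable f
  le : ∀ x, |f x| ≤ M

/-- The potential of a density. -/
noncomputable def pot (μ : Measure X) (L : X → X → ℝ) (g : X → ℝ) (x : X) : ℝ :=
  ∫ y, L x y * g y ∂μ

variable {μ : Measure X} {L : X → X → ℝ} {l : X → ℝ} {b A : ℝ}

theorem Bd.nonneg [Nonempty X] {M : ℝ} {f : X → ℝ} (hf : Bd M f) : 0 ≤ M :=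
  (abs_nonneg _).trans (hf.le (Classical.arbitrary X))

theorem Bd.mul_int {M : ℝ} {f g : X → ℝ} (hf : Bd M f) (hg : Integrable g μ) :
    Integrable (fun x => g x * f x) μ :=
  hg.mul_bdd hf.meas.aestronglyMeasurable (Eventually.of_forall fun x => by simpa using hf.le x)

theorem Bd.int [IsFiniteMeasure μ] {M : ℝ} {f : X → ℝ} (hf : Bd M f) : Integrable f μ := by
  simpa using hf.mul_int (integrable_const (1 : ℝ) (μ := μ))

theorem Ker.measx (h : Ker μ L l b A) (x : X) : Measurable (L x) :=
  h.measL.of_uncurry_left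

theorem Ker.abs_le (h : Ker μ L l b A) (x y : X) :
    |L x y| ≤ Real.exp (-b * L x y) / b + l x + l y := by
  have hb := h.b_pos
  have h1 := h.l_nonneg x
  have h2 := h.l_nonneg y
  have h3 := h.L_le x y
  have h4 : -b * L x y ≤ Real.exp (-b * L x y) := by linarith [Real.add_one_le_exp (-b * L x y)]
  have h5 : -L x y ≤ Real.exp (-b * L x y) / b := by rw [le_div_iff₀ hb]; linarith
  have h6 : 0 ≤ Real.exp (-b * L x y) / b := by positivity
  rw [_root_.abs_le]; constructor <;> linarith

theorem Ker.sq_le (h : Ker μ L l b A) (x y : X) :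
    L x y ^ 2 ≤ 2 * Real.exp (-b * L x y) / b ^ 2 + 2 * l x ^ 2 + 4 * Real.exp (l y) := by
  have hb := h.b_pos
  have h1 := h.l_nonneg x
  have h2 := h.l_nonneg y
  have h3 := h.L_le x y
  have h7 : l y ^ 2 ≤ 2 * Real.exp (l y) := by
    have := Real.quadratic_le_exp_of_nonneg h2
    linarith
  have h6 : 0 ≤ 2 * Real.exp (-b * L x y) / b ^ 2 := by positivity
  rcases le_total 0 (L x y) with h0 | h0
  · have : L x y ^ 2 ≤ (l x + l y) ^ 2 := pow_le_pow_left₀ h0 h3 2
    nlinarith [sq_nonneg (l x - l y)]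
  · have h8 : 0 ≤ -b * L x y := by nlinarith
    have h9 := Real.quadratic_le_exp_of_nonneg h8
    have h10 : L x y ^ 2 ≤ 2 * Real.exp (-b * L x y) / b ^ 2 := by
      rw [le_div_iff₀ (by positivity)]; nlinarith
    have := Real.exp_pos (l y)
    nlinarith [sq_nonneg (l x)]

theorem Ker.int_l' (h : Ker μ L l b A) : Integrable l μ :=
  h.int_l.mono' h.measl.aestronglyMeasurable (Eventually.of_forall fun x => by
    rw [Real.norm_eq_abs, abs_of_nonneg (h.l_nonneg x)]
    linarith [Real.add_one_le_exp (l x)])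

variable [IsFiniteMeasure μ]

theorem Ker.intx (h : Ker μ L l b A) (x : X) : Integrable (L x) μ :=
  Integrable.mono' ((((h.int_exp x).div_const b).add (integrable_const (l x))).add h.int_l')
    (h.measx x).aestronglyMeasurable (Eventually.of_forall fun y => h.abs_le x y)

theorem Ker.memLp (h : Ker μ L l b A) (x : X) : MemLp (L x) 2 μ := by
  rw [memLp_two_iff_integrable_sq (h.measx x).aestronglyMeasurable]
  refine Integrable.mono' (((((h.int_exp x).const_mul 2).div_const (b ^ 2)).add
    (integrable_const (2 * l x ^ 2))).add (h.int_l.const_mul 4))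
    ((h.measx x).pow_const 2).aestronglyMeasurable (Eventually.of_forall fun y => ?_)
  rw [Real.norm_eq_abs, abs_of_nonneg (sq_nonneg _)]
  exact h.sq_le x y

theorem Ker.int_abs_le (h : Ker μ L l b A) (x : X) :
    ∫ y, |L x y| ∂μ ≤ A / b + μ.real Set.univ * l x + ∫ y, l y ∂μ := by
  have h1 : ∫ y, |L x y| ∂μ ≤ ∫ y, (Real.exp (-b * L x y) / b + l x + l y) ∂μ :=
    integral_mono (h.intx x).abs
      ((((h.int_exp x).div_const b).add (integrable_const (l x))).add h.int_l')
      (fun y => h.abs_le x y)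
  have i1 : Integrable (fun y => Real.exp (-b * L x y) / b + l x) μ :=
    ((h.int_exp x).div_const b).add (integrable_const (l x))
  rw [integral_add i1 h.int_l',
    integral_add ((h.int_exp x).div_const b) (integrable_const (l x)), integral_div,
    integral_const, smul_eq_mul] at h1
  have := div_le_div_of_nonneg_right (h.bound x) h.b_pos.le
  linarith

theorem Ker.int_dom (h : Ker μ L l b A) :
    Integrable (fun x => A / b + μ.real Set.univ * l x + ∫ y, l y ∂μ) μ :=
  ((integrable_const _).add (h.int_l'.const_mul _)).add (integrable_const _)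

theorem Ker.int_prod (h : Ker μ L l b A) : Integrable (Function.uncurry L) (μ.prod μ) := by
  rw [integrable_prod_iff h.measL.aestronglyMeasurable]
  refine ⟨Eventually.of_forall fun x => h.intx x, ?_⟩
  refine h.int_dom.mono' h.measL.norm.aestronglyMeasurable.integral_prod_right'
    (Eventually.of_forall fun x => ?_)
  rw [Real.norm_eq_abs, abs_of_nonneg (integral_nonneg fun y => norm_nonneg _)]
  exact h.int_abs_le x

theorem Ker.meas_pot (h : Ker μ L l b A) {g : X → ℝ} (hg : Measurable g) :
    Measurable (pot μ L g) := by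
  have : StronglyMeasurable (Function.uncurry fun x y => L x y * g y) :=
    (h.measL.mul (hg.comp measurable_snd)).stronglyMeasurable
  exact this.integral_prod_right.measurable

theorem Ker.pot_abs_le (h : Ker μ L l b A) {M : ℝ} {g : X → ℝ} (hg : Bd M g) (x : X) :
    |pot μ L g x| ≤ M * (A / b + μ.real Set.univ * l x + ∫ y, l y ∂μ) := by
  have hM : 0 ≤ M := (abs_nonneg _).trans (hg.le x)
  refine le_trans ?_ (mul_le_mul_of_nonneg_left (h.int_abs_le x) hM)
  rw [← integral_const_mul]
  refine abs_integral_le_integral_abs.trans (integral_mono (hg.mul_int (h.intx x)).abs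
    ((h.intx x).abs.const_mul M) fun y => ?_)
  simp only [abs_mul]
  rw [mul_comm]
  exact mul_le_mul_of_nonneg_right (hg.le y) (abs_nonneg _)

theorem Ker.int_pot (h : Ker μ L l b A) {M : ℝ} {g : X → ℝ} (hg : Bd M g) :
    Integrable (pot μ L g) μ :=
  (h.int_dom.const_mul M).mono' (h.meas_pot hg.meas).aestronglyMeasurable
    (Eventually.of_forall fun x => h.pot_abs_le hg x)

/-- The interaction energy. -/
noncomputable def inter (μ : Measure X) (L : X → X → ℝ) (f g : X → ℝ) : ℝ :=
  ∫ x, pot μ L f x * g x ∂μ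

theorem Ker.inter_symm (h : Ker μ L l b A) {M N : ℝ} {f g : X → ℝ} (hf : Bd M f) (hg : Bd N g) :
    inter μ L f g = inter μ L g f := by
  have hi : Integrable (Function.uncurry fun x y => L x y * f y * g x) (μ.prod μ) := by
    have h1 : Bd M (fun z : X × X => f z.2) := ⟨hf.meas.comp measurable_snd, fun z => hf.le _⟩
    have h2 : Bd N (fun z : X × X => g z.1) := ⟨hg.meas.comp measurable_fst, fun z => hg.le _⟩
    exact h2.mul_int (h1.mul_int h.int_prod)
  unfold inter pot
  simp_rw [← integral_mul_const]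
  rw [integral_integral_swap hi]
  refine integral_congr_ae (Eventually.of_forall fun y => ?_)
  refine integral_congr_ae (Eventually.of_forall fun x => ?_)
  simp only
  rw [h.symm x y]; ring

theorem Ker.inter_abs_le (h : Ker μ L l b A) {M : ℝ} {f : X → ℝ} (hf : Bd M f) :
    |inter μ L f f| ≤ M ^ 2 * ∫ x, (A / b + μ.real Set.univ * l x + ∫ y, l y ∂μ) ∂μ := by
  rw [← integral_const_mul]
  refine abs_integral_le_integral_abs.trans (integral_mono (hf.mul_int (h.int_pot hf)).abs
    (h.int_dom.const_mul _) fun x => ?_)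
  have hM : 0 ≤ M := (abs_nonneg _).trans (hf.le x)
  simp only [abs_mul]
  calc |pot μ L f x| * |f x|
      ≤ (M * (A / b + μ.real Set.univ * l x + ∫ y, l y ∂μ)) * M :=
        mul_le_mul (h.pot_abs_le hf x) (hf.le x) (abs_nonneg _)
          ((abs_nonneg _).trans (h.pot_abs_le hf x))
    _ = _ := by ring

theorem Ker.pot_add (h : Ker μ L l b A) {M N : ℝ} {f g : X → ℝ} (hf : Bd M f) (hg : Bd N g)
    (ε : ℝ) (x : X) :
    pot μ L (fun y => f y + ε * g y) x = pot μ L f x + ε * pot μ L g x := by
  unfold pot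
  rw [← integral_const_mul, ← integral_add (hf.mul_int (h.intx x))
    ((hg.mul_int (h.intx x)).const_mul ε)]
  exact integral_congr_ae (Eventually.of_forall fun y => by ring)

theorem Ker.inter_add (h : Ker μ L l b A) {M N : ℝ} {f g : X → ℝ} (hf : Bd M f) (hg : Bd N g)
    (ε : ℝ) :
    inter μ L (fun y => f y + ε * g y) (fun y => f y + ε * g y) =
      inter μ L f f + 2 * ε * inter μ L f g + ε ^ 2 * inter μ L g g := by
  have e1 : inter μ L (fun y => f y + ε * g y) (fun y => f y + ε * g y) =
      inter μ L f f + ε * inter μ L f g + ε * inter μ L g f + ε ^ 2 * inter μ L g g := by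
    unfold inter
    have i1 := hf.mul_int (h.int_pot hf)
    have i2 := (hg.mul_int (h.int_pot hf)).const_mul ε
    have i3 := (hf.mul_int (h.int_pot hg)).const_mul ε
    have i4 := (hg.mul_int (h.int_pot hg)).const_mul (ε ^ 2)
    have i5 : Integrable (fun x => pot μ L f x * f x + ε * (pot μ L f x * g x)) μ := i1.add i2
    have i6 : Integrable (fun x => pot μ L f x * f x + ε * (pot μ L f x * g x)
      + ε * (pot μ L g x * f x)) μ := i5.add i3
    rw [← integral_const_mul, ← integral_const_mul, ← integral_const_mul,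
      ← integral_add i1 i2, ← integral_add i5 i3, ← integral_add i6 i4]
    refine integral_congr_ae (Eventually.of_forall fun x => ?_)
    simp only [h.pot_add hf hg]
    ring
  rw [e1, h.inter_symm hg hf]; ring

theorem young {g : ℝ} (hg : 0 ≤ g) (f : ℝ) : f * g ≤ g * Real.log g - g + Real.exp f := by
  rcases hg.eq_or_lt with rfl | hg
  · simp [(Real.exp_pos f).le]
  · have h1 := Real.add_one_le_exp (f - Real.log g)
    rw [Real.exp_sub, Real.exp_log hg, le_div_iff₀ hg] at h1
    nlinarith

theorem kl_lower {a c M : ℝ} (ha : 0 ≤ a) (hc : 0 < c) (haM : a ≤ M) (hcM : c ≤ M) :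
    (a - c) ^ 2 ≤ 4 * M * (a * Real.log a - a * Real.log c - a + c) := by
  have hM : 0 < M := hc.trans_le hcM
  rcases ha.eq_or_lt with rfl | ha
  · simp; nlinarith
  · obtain ⟨s, hs, rfl⟩ : ∃ s, 0 < s ∧ a = s ^ 2 :=
      ⟨Real.sqrt a, Real.sqrt_pos.2 ha, (Real.sq_sqrt ha.le).symm⟩
    obtain ⟨t, ht, rfl⟩ : ∃ t, 0 < t ∧ c = t ^ 2 :=
      ⟨Real.sqrt c, Real.sqrt_pos.2 hc, (Real.sq_sqrt hc.le).symm⟩
    have h1 := Real.log_le_sub_one_of_pos (div_pos ht hs)
    rw [Real.log_div ht.ne' hs.ne'] at h1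
    have h2 : s ^ 2 * (Real.log t - Real.log s) ≤ s * t - s ^ 2 := by
      have := mul_le_mul_of_nonneg_left h1 (sq_nonneg s)
      have e : s ^ 2 * (t / s - 1) = s * t - s ^ 2 := by field_simp
      linarith
    simp only [Real.log_pow]
    push_cast
    have h3 : (s - t) ^ 2 ≤ s ^ 2 * (2 * Real.log s) - s ^ 2 * (2 * Real.log t) - s ^ 2 + t ^ 2 := by
      nlinarith
    have h4 : (s + t) ^ 2 ≤ 4 * M := by nlinarith [sq_nonneg (s - t)]
    calc (s ^ 2 - t ^ 2) ^ 2 = (s + t) ^ 2 * (s - t) ^ 2 := by ring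
      _ ≤ 4 * M * _ := mul_le_mul h4 h3 (sq_nonneg _) (by positivity)

end Pool.Agent.Lib.MP_d59d86_an
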