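import Pool.Agent.Lib.MP_d59d86_an.Fixed1

/-! Near-minimizers of the free energy are approximate fixed points. -/

namespace Pool.Agent.Lib.MP_d59d86_an

open MeasureTheory Filter Topology

variable {X : Type} [MeasurableSpace X]

/-- Probability densities bounded by `M`. -/
structure Adm (μ : Measure X) (M : ℝ) (g : X → ℝ) : Prop where
  meas : Measurable g
  nonneg : ∀ x, 0 ≤ g x
  le : ∀ x, g x ≤ M
  one : ∫ x, g x ∂μ = 1

/-- Entropy. -/
noncomputable def ent (μ : Measure X) (g : X → ℝ) : ℝ := ∫ x, g x * Real.log (g x) ∂μ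

/-- Free energy. -/
noncomputable def fe (μ : Measure X) (L : X → X → ℝ) (β : ℝ) (g : X → ℝ) : ℝ :=
  ent μ g + β * inter μ L g g

/-- Partition function. -/
noncomputable def part (μ : Measure X) (β : ℝ) (U : X → ℝ) : ℝ :=
  ∫ x, Real.exp (-(2 * β) * U x) ∂μ

/-- Gibbs density. -/
noncomputable def gibbs (μ : Measure X) (β : ℝ) (U : X → ℝ) (x : X) : ℝ :=
  Real.exp (-(2 * β) * U x) / part μ β U

variable {μ : Measure X} {L : X → X → ℝ} {l : X → ℝ} {b A M : ℝ} {g : X → ℝ}

theorem Adm.bd (hg : Adm μ M g) : Bd M g :=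
  ⟨hg.meas, fun x => by rw [abs_of_nonneg (hg.nonneg x)]; exact hg.le x⟩

theorem Adm.bd_ent (hg : Adm μ M g) : Bd (1 + M ^ 2) (fun x => g x * Real.log (g x)) := by
  refine ⟨hg.meas.mul hg.meas.log, fun x => ?_⟩
  have h0 := hg.nonneg x
  have h1 := hg.le x
  have h2 := young h0 0
  have h3 : g x * Real.log (g x) ≤ g x * g x :=
    mul_le_mul_of_nonneg_left (Real.log_le_self h0) h0
  rw [Real.exp_zero] at h2
  rw [abs_le]
  constructor <;> nlinarith

variable [IsFiniteMeasure μ]

theorem Adm.young_int (hg : Adm μ M g) {f : X → ℝ} (hf : Integrable f μ)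
    (he : Integrable (fun x => Real.exp (f x)) μ) :
    ∫ x, f x * g x ∂μ ≤ ent μ g - 1 + ∫ x, Real.exp (f x) ∂μ := by
  have i1 : Integrable (fun x => g x * Real.log (g x) - g x) μ := hg.bd_ent.int.sub hg.bd.int
  have h1 : ∫ x, f x * g x ∂μ ≤ ∫ x, (g x * Real.log (g x) - g x + Real.exp (f x)) ∂μ :=
    integral_mono (hg.bd.mul_int hf) (i1.add he) fun x => young (hg.nonneg x) (f x)
  rwa [integral_add i1 he, integral_sub hg.bd_ent.int hg.bd.int, hg.one] at h1

theorem Adm.ent_lower (hg : Adm μ M g) : 1 - μ.real Set.univ ≤ ent μ g := by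
  have := hg.young_int (f := fun _ => 0) (integrable_const _) (integrable_const _)
  simp at this
  linarith

theorem Ker.pot_lower (h : Ker μ L l b A) (hg : Adm μ M g) (x : X) :
    -((ent μ g - 1 + A) / b) ≤ pot μ L g x := by
  have h1 := hg.young_int (f := fun y => -b * L x y) ((h.intx x).const_mul _) (h.int_exp x)
  have h2 : ∫ y, -b * L x y * g y ∂μ = -b * pot μ L g x := by
    unfold pot; rw [← integral_const_mul]
    exact integral_congr_ae (Eventually.of_forall fun y => by ring)
  rw [h2] at h1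
  have := h.bound x
  rw [neg_le, le_div_iff₀ h.b_pos]
  linarith

theorem Ker.pot_upper (h : Ker μ L l b A) (hg : Adm μ M g) (x : X) :
    pot μ L g x ≤ l x + (ent μ g - 1 + ∫ y, Real.exp (l y) ∂μ) := by
  have h1 := hg.young_int h.int_l' h.int_l
  have i1 : Integrable (fun y => l x * g y) μ := hg.bd.int.const_mul _
  have i2 := hg.bd.mul_int h.int_l'
  have h2 : pot μ L g x ≤ ∫ y, (l x * g y + l y * g y) ∂μ :=
    integral_mono (hg.bd.mul_int (h.intx x)) (i1.add i2) fun y => by
      have := mul_le_mul_of_nonneg_right (h.L_le x y) (hg.nonneg y)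
      simp only; linarith
  rw [integral_add i1 i2, integral_const_mul, hg.one] at h2
  linarith

theorem Ker.fe_lower (h : Ker μ L l b A) (hg : Adm μ M g) {β : ℝ} (hβ : 0 ≤ β) :
    (1 - β / b) * ent μ g - β * (A - 1) / b ≤ fe μ L β g := by
  have h1 : ∫ x, -((ent μ g - 1 + A) / b) * g x ∂μ ≤ inter μ L g g :=
    integral_mono (hg.bd.int.const_mul _) (hg.bd.mul_int (h.int_pot hg.bd)) fun x =>
      mul_le_mul_of_nonneg_right (h.pot_lower hg x) (hg.nonneg x)
  rw [integral_const_mul, hg.one, mul_one] at h1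
  have h2 := mul_le_mul_of_nonneg_left h1 hβ
  unfold fe
  have e : (1 - β / b) * ent μ g - β * (A - 1) / b = ent μ g + β * -((ent μ g - 1 + A) / b) := by
    ring
  linarith

/-- Two-sided control of a potential. -/
structure Ctl (l : X → ℝ) (B : ℝ) (U : X → ℝ) : Prop where
  meas : Measurable U
  lower : ∀ x, -B ≤ U x
  upper : ∀ x, U x ≤ l x + B

theorem Ctl.bd_exp {B β : ℝ} {U : X → ℝ} (hU : Ctl l B U) (hβ : 0 ≤ β) :
    Bd (Real.exp (2 * β * B)) (fun x => Real.exp (-(2 * β) * U x)) :=
  ⟨(hU.meas.const_mul _).exp, fun x => by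
    rw [abs_of_pos (Real.exp_pos _)]
    refine Real.exp_le_exp.2 ?_
    nlinarith [hU.lower x]⟩

/-- The lower bound for partition functions. -/
noncomputable def plow (μ : Measure X) (l : X → ℝ) (β B : ℝ) : ℝ :=
  ∫ x, Real.exp (-(2 * β) * (l x + B)) ∂μ

theorem Ker.int_plow (h : Ker μ L l b A) {β : ℝ} (hβ : 0 ≤ β) (B : ℝ) :
    Integrable (fun x => Real.exp (-(2 * β) * (l x + B))) μ := by
  have : Bd (Real.exp (-(2 * β) * B)) (fun x => Real.exp (-(2 * β) * (l x + B))) :=
    ⟨((h.measl.add_const _).const_mul _).exp, fun x => by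
      rw [abs_of_pos (Real.exp_pos _)]
      refine Real.exp_le_exp.2 ?_
      nlinarith [h.l_nonneg x]⟩
  exact this.int

theorem Ker.plow_pos [NeZero μ] (h : Ker μ L l b A) {β : ℝ} (hβ : 0 ≤ β) (B : ℝ) :
    0 < plow μ l β B :=
  integral_exp_pos (h.int_plow hβ B)

theorem Ker.plow_le (h : Ker μ L l b A) {β B : ℝ} (hβ : 0 ≤ β) {U : X → ℝ} (hU : Ctl l B U) :
    plow μ l β B ≤ part μ β U :=
  integral_mono (h.int_plow hβ B) (hU.bd_exp hβ).int fun x =>
    Real.exp_le_exp.2 (by nlinarith [hU.upper x])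

theorem Ker.gibbs_adm [NeZero μ] (h : Ker μ L l b A) {β B : ℝ} (hβ : 0 ≤ β) {U : X → ℝ}
    (hU : Ctl l B U) (hM : Real.exp (2 * β * B) / plow μ l β B ≤ M) :
    Adm μ M (gibbs μ β U) := by
  have h0 := h.plow_pos hβ B
  have h1 := h.plow_le hβ hU
  have h2 : 0 < part μ β U := h0.trans_le h1
  refine ⟨(hU.bd_exp hβ).meas.div_const _, fun x => (div_pos (Real.exp_pos _) h2).le,
    fun x => le_trans ?_ hM, ?_⟩
  · exact div_le_div₀ (Real.exp_pos _).le ((le_abs_self _).trans ((hU.bd_exp hβ).le x)) h0 h1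
  · unfold gibbs
    rw [integral_div]
    exact div_self h2.ne'

theorem Ker.near_min [NeZero μ] (h : Ker μ L l b A) {β B δ ε : ℝ} (hβ : 0 ≤ β)
    (hg : Adm μ M g) (hU : Ctl l B (pot μ L g)) (hM : Real.exp (2 * β * B) / plow μ l β B ≤ M)
    (hmin : ∀ g', Adm μ M g' → fe μ L β g ≤ fe μ L β g' + δ) (hε : 0 < ε) (hε1 : ε ≤ 1) :
    ∫ x, (g x - gibbs μ β (pot μ L g) x) ^ 2 ∂μ ≤
      4 * M * (δ / ε + ε * β *
        (M ^ 2 * ∫ x, (A / b + μ.real Set.univ * l x + ∫ y, l y ∂μ) ∂μ)) := by
  set U := pot μ L g with hUdef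
  set t := gibbs μ β U with ht
  set D := M ^ 2 * ∫ x, (A / b + μ.real Set.univ * l x + ∫ y, l y ∂μ) ∂μ
  have hta : Adm μ M t := h.gibbs_adm hβ hU hM
  have hZ : 0 < part μ β U := (h.plow_pos hβ B).trans_le (h.plow_le hβ hU)
  have htpos : ∀ x, 0 < t x := fun x => div_pos (Real.exp_pos _) hZ
  have hlog : ∀ x, Real.log (t x) = -(2 * β) * U x - Real.log (part μ β U) := fun x => by
    rw [ht, gibbs, Real.log_div (Real.exp_pos _).ne' hZ.ne', Real.log_exp]
  have hd : Bd M (fun x => t x - g x) := ⟨hta.meas.sub hg.meas, fun x => by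
    rw [_root_.abs_le]; constructor <;> linarith [hta.nonneg x, hta.le x, hg.nonneg x, hg.le x]⟩
  have hga : Adm μ M (fun x => g x + ε * (t x - g x)) := by
    refine ⟨hg.meas.add (hd.meas.const_mul _), fun x => ?_, fun x => ?_, ?_⟩
    · nlinarith [hta.nonneg x, hg.nonneg x]
    · nlinarith [hta.le x, hg.le x]
    · rw [integral_add hg.bd.int (hd.int.const_mul _), integral_const_mul,
        integral_sub hta.bd.int hg.bd.int, hg.one, hta.one]
      ring
  have hent : ent μ (fun x => g x + ε * (t x - g x)) ≤ (1 - ε) * ent μ g + ε * ent μ t := by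
    unfold ent
    rw [← integral_const_mul, ← integral_const_mul,
      ← integral_add (hg.bd_ent.int.const_mul _) (hta.bd_ent.int.const_mul _)]
    refine integral_mono hga.bd_ent.int
      ((hg.bd_ent.int.const_mul _).add (hta.bd_ent.int.const_mul _)) fun x => ?_
    have := Real.convexOn_mul_log.2 (hg.nonneg x) (hta.nonneg x) (sub_nonneg.2 hε1) hε.le
      (by ring)
    simp only [smul_eq_mul] at this
    have e : g x + ε * (t x - g x) = (1 - ε) * g x + ε * t x := by ring
    simp only [e]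
    exact this
  have hint := h.inter_add hg.bd hd ε
  have hD : |inter μ L (fun x => t x - g x) (fun x => t x - g x)| ≤ D := h.inter_abs_le hd
  have iU := h.int_pot hg.bd
  have e1 : inter μ L g (fun x => t x - g x) = inter μ L g t - inter μ L g g := by
    unfold inter
    rw [← integral_sub (hta.bd.mul_int iU) (hg.bd.mul_int iU)]
    exact integral_congr_ae (Eventually.of_forall fun x => by ring)
  have e2 : ent μ t = -(2 * β) * inter μ L g t - Real.log (part μ β U) := by
    have : ent μ t = ∫ x, (-(2 * β) * (U x * t x) - Real.log (part μ β U) * t x) ∂μ :=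
      integral_congr_ae (Eventually.of_forall fun x => by simp only [hlog]; ring)
    rw [this, integral_sub ((hta.bd.mul_int iU).const_mul _) (hta.bd.int.const_mul _),
      integral_const_mul, integral_const_mul, hta.one, mul_one]
    rfl
  set K := ent μ g + 2 * β * inter μ L g g + Real.log (part μ β U) with hK
  have i1 : Integrable (fun x => g x * Real.log (g x) + 2 * β * (U x * g x)) μ :=
    hg.bd_ent.int.add ((hg.bd.mul_int iU).const_mul _)
  have i2 : Integrable (fun x => g x * Real.log (g x) + 2 * β * (U x * g x)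
      + Real.log (part μ β U) * g x) μ := i1.add (hg.bd.int.const_mul _)
  have e3 : ∫ x, (g x * Real.log (g x) + 2 * β * (U x * g x) + Real.log (part μ β U) * g x
      + (t x - g x)) ∂μ = K := by
    rw [integral_add i2 hd.int, integral_add i1 (hg.bd.int.const_mul _),
      integral_add hg.bd_ent.int ((hg.bd.mul_int iU).const_mul _), integral_const_mul,
      integral_const_mul, integral_sub hta.bd.int hg.bd.int, hg.one, hta.one]
    simp only [hK, ent, inter]
    ring
  have hsq : Bd (M ^ 2) (fun x => (g x - t x) ^ 2) := ⟨(hg.meas.sub hta.meas).pow_const 2,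
    fun x => by
      rw [abs_pow, abs_sub_comm]
      exact pow_le_pow_left₀ (abs_nonneg _) (hd.le x) 2⟩
  have h4 : ∫ x, (g x - t x) ^ 2 ∂μ ≤ 4 * M * K := by
    rw [← e3, ← integral_const_mul]
    refine integral_mono hsq.int ((i2.add hd.int).const_mul _) fun x => ?_
    have := kl_lower (hg.nonneg x) (htpos x) (hg.le x) (hta.le x)
    rw [hlog] at this
    simp only
    refine this.trans (le_of_eq ?_)
    ring
  have h5 := hmin _ hga
  unfold fe at h5
  rw [hint, e1] at h5
  have h6 : ε * K ≤ δ + ε ^ 2 * β * D := by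
    have h7 : β * (ε ^ 2 * inter μ L (fun x => t x - g x) (fun x => t x - g x))
        ≤ ε ^ 2 * β * D := by
      have := mul_le_mul_of_nonneg_left ((le_abs_self _).trans hD) (show 0 ≤ ε ^ 2 * β by positivity)
      linarith
    rw [e2] at hent
    rw [hK]
    nlinarith
  have hM0 : 0 ≤ M := by
    have : 0 < Real.exp (2 * β * B) / plow μ l β B := div_pos (Real.exp_pos _) (h.plow_pos hβ B)
    linarith
  refine h4.trans (mul_le_mul_of_nonneg_left ?_ (by positivity))
  have : K ≤ (δ + ε ^ 2 * β * D) / ε := by rw [le_div_iff₀ hε]; linarith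
  refine this.trans (le_of_eq ?_)
  field_simp

end Pool.Agent.Lib.MP_d59d86_an
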