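import Pool.Agent.Lib.MP_d59d86_an.Fixed2

/-! Existence of a fixed point `g = exp(-2β U_g) / Z`. -/

namespace Pool.Agent.Lib.MP_d59d86_an

open MeasureTheory Filter Topology

variable {X : Type} [MeasurableSpace X]
variable {μ : Measure X} {L : X → X → ℝ} {l : X → ℝ} {b A M : ℝ} [IsFiniteMeasure μ]

theorem Bd.memLp {f : X → ℝ} (hf : Bd M f) : MemLp f 2 μ :=
  MemLp.of_bound hf.meas.aestronglyMeasurable M (Eventually.of_forall fun x => hf.le x)

theorem exists_weak_subseq [MeasurableSpace.CountablyGenerated X] (g : ℕ → X → ℝ)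
    (hg : ∀ k, Bd M (g k)) :
    ∃ φ : ℕ → ℕ, StrictMono φ ∧ ∀ f : X → ℝ, MemLp f 2 μ →
      ∃ c, Tendsto (fun k => ∫ y, f y * g (φ k) y ∂μ) atTop (𝓝 c) := by
  haveI : Fact ((2 : ENNReal) ≠ ⊤) := ⟨by norm_num⟩
  let G : ℕ → Lp ℝ 2 μ := fun k => (hg k).memLp.toLp (g k)
  obtain ⟨R, hR⟩ : ∃ R, ∀ k, ‖G k‖ ≤ R := by
    refine ⟨(measureUnivNNReal μ : ℝ) ^ (2 : ENNReal).toReal⁻¹ * |M|, fun k => ?_⟩
    refine Lp.norm_le_of_ae_bound (abs_nonneg M) ?_
    filter_upwards [(hg k).memLp.coeFn_toLp (μ := μ)] with x hx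
    rw [hx]
    exact ((hg k).le x).trans (le_abs_self M)
  let W : ℕ → WeakDual ℝ (Lp ℝ 2 μ) := fun k => StrongDual.toWeakDual (innerSL ℝ (G k))
  have hW : ∀ k, W k ∈ WeakDual.toStrongDual ⁻¹' Metric.closedBall (0 : StrongDual ℝ (Lp ℝ 2 μ)) R :=
    fun k => by simpa [W] using hR k
  obtain ⟨w, -, φ, hφ, hlim⟩ := WeakDual.isSeqCompact_closedBall ℝ (Lp ℝ 2 μ) 0 R hW
  refine ⟨φ, hφ, fun f hf => ⟨w (hf.toLp f), ?_⟩⟩
  have h1 : Tendsto (fun k => W (φ k) (hf.toLp f)) atTop (𝓝 (w (hf.toLp f))) :=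
    ((WeakDual.eval_continuous (hf.toLp f)).tendsto w).comp hlim
  refine h1.congr fun k => ?_
  change inner ℝ (G (φ k)) (hf.toLp f) = _
  rw [L2.inner_def]
  refine integral_congr_ae ?_
  filter_upwards [(hg (φ k)).memLp.coeFn_toLp (μ := μ), hf.coeFn_toLp] with x hx hx'
  simp only [G, hx, hx']
  simp

theorem abs_int_mul_le {f d : X → ℝ} (hf : MemLp f 2 μ) (hd : Bd M d) {η : ℝ} (hη : 0 < η) :
    |∫ y, f y * d y ∂μ| ≤ η * ∫ y, f y ^ 2 ∂μ + (∫ y, d y ^ 2 ∂μ) / η := by
  have i1 := hf.integrable_sq.const_mul η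
  have i2 := (hd.memLp (μ := μ)).integrable_sq.div_const η
  rw [← integral_const_mul, ← integral_div, ← integral_add i1 i2]
  refine abs_integral_le_integral_abs.trans (integral_mono
    (hd.mul_int (hf.integrable (by norm_num))).abs (i1.add i2) fun y => ?_)
  simp only
  have e : η * f y ^ 2 + d y ^ 2 / η = (η ^ 2 * f y ^ 2 + d y ^ 2) / η := by field_simp
  rw [e, le_div_iff₀ hη, abs_mul, ← sq_abs (f y), ← sq_abs (d y)]
  nlinarith [sq_nonneg (η * |f y| - |d y|), mul_nonneg (abs_nonneg (f y)) (abs_nonneg (d y))]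

theorem Ker.exists_fixed [MeasurableSpace.CountablyGenerated X] [NeZero μ] (h : Ker μ L l b A)
    {β : ℝ} (hβ : 0 ≤ β) (hβb : β < b) :
    ∃ M B g, Adm μ M g ∧ Ctl l B (pot μ L g) ∧ ∀ x, g x = gibbs μ β (pot μ L g) x := by
  have hb := h.b_pos
  have hm : 0 < μ.real Set.univ := measureReal_univ_pos
  have hq : 0 < 1 - β / b := by rw [sub_pos, div_lt_one hb]; exact hβb
  set F0 := fe μ L β (fun _ => (μ.real Set.univ)⁻¹)
  set E0 := (F0 + 1 + β * (A - 1) / b) / (1 - β / b)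
  set B := max ((E0 - 1 + A) / b) (E0 - 1 + ∫ y, Real.exp (l y) ∂μ)
  set M := max (Real.exp (2 * β * B) / plow μ l β B) (μ.real Set.univ)⁻¹
  have hM : Real.exp (2 * β * B) / plow μ l β B ≤ M := le_max_left _ _
  have h0 : Adm μ M (fun _ => (μ.real Set.univ)⁻¹) :=
    ⟨measurable_const, fun _ => by positivity, fun _ => le_max_right _ _, by
      rw [integral_const, smul_eq_mul, mul_inv_cancel₀ hm.ne']⟩
  have hctl : ∀ g, Adm μ M g → fe μ L β g ≤ F0 + 1 → Ctl l B (pot μ L g) := by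
    intro g hg hF
    have h1 := h.fe_lower hg hβ
    have h2 : ent μ g ≤ E0 := by rw [le_div_iff₀ hq]; linarith
    refine ⟨h.meas_pot hg.meas, fun x => le_trans ?_ (h.pot_lower hg x),
      fun x => (h.pot_upper hg x).trans ?_⟩
    · rw [neg_le_neg_iff]
      exact le_trans (div_le_div_of_nonneg_right (by linarith) hb.le) (le_max_left _ _)
    · exact add_le_add le_rfl (le_trans (by linarith) (le_max_right _ _))
  set S := fe μ L β '' {g | Adm μ M g}
  have hne : S.Nonempty := ⟨_, _, h0, rfl⟩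
  have hbdd : BddBelow S := by
    refine ⟨(1 - β / b) * (1 - μ.real Set.univ) - β * (A - 1) / b, ?_⟩
    rintro _ ⟨g, hg, rfl⟩
    have h1 := h.fe_lower hg hβ
    have h2 := mul_le_mul_of_nonneg_left hg.ent_lower hq.le
    linarith
  let η : ℕ → ℝ := fun k => 1 / ((k : ℝ) + 1)
  have hη : ∀ k, 0 < η k := fun k => Nat.one_div_pos_of_nat
  have hη1 : ∀ k, η k ≤ 1 := fun k => by
    simp only [η]; rw [div_le_one (by positivity)]; linarith [(Nat.cast_nonneg k : (0 : ℝ) ≤ k)]
  have hηlim : Tendsto η atTop (𝓝 0) := tendsto_one_div_add_atTop_nhds_zero_nat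
  have hex : ∀ k, ∃ g, Adm μ M g ∧ fe μ L β g < sInf S + η k ^ 4 := fun k => by
    obtain ⟨_, ⟨g, hg, rfl⟩, hlt⟩ := exists_lt_of_csInf_lt hne
      (show sInf S < sInf S + η k ^ 4 by linarith [pow_pos (hη k) 4])
    exact ⟨g, hg, hlt⟩
  choose g hg hlt using hex
  have hmin : ∀ k g', Adm μ M g' → fe μ L β (g k) ≤ fe μ L β g' + η k ^ 4 := fun k g' hg' => by
    have := csInf_le hbdd (⟨g', hg', rfl⟩ : fe μ L β g' ∈ S)
    linarith [hlt k]
  have hc : ∀ k, Ctl l B (pot μ L (g k)) := fun k => hctl _ (hg k) (by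
    have h1 := hmin k _ h0
    have h2 : η k ^ 4 ≤ 1 := pow_le_one₀ (hη k).le (hη1 k)
    linarith)
  set D := M ^ 2 * ∫ x, (A / b + μ.real Set.univ * l x + ∫ y, l y ∂μ) ∂μ
  have hnear : ∀ k, ∫ x, (g k x - gibbs μ β (pot μ L (g k)) x) ^ 2 ∂μ ≤
      4 * M * (1 + β * D) * η k ^ 2 := fun k => by
    refine (h.near_min hβ (hg k) (hc k) hM (hmin k) (pow_pos (hη k) 2)
      (pow_le_one₀ (hη k).le (hη1 k))).trans (le_of_eq ?_)
    have := (hη k).ne'
    change 4 * M * (η k ^ 4 / η k ^ 2 + η k ^ 2 * β * D) = _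
    clear_value D
    field_simp
  obtain ⟨φ, hφ, hlim⟩ := exists_weak_subseq (μ := μ) g (fun k => (hg k).bd)
  choose U hU using fun x => hlim (L x) (h.memLp x)
  change ∀ x, Tendsto (fun k => pot μ L (g (φ k)) x) atTop (𝓝 (U x)) at hU
  have hcU : Ctl l B U :=
    ⟨measurable_of_tendsto_metrizable (fun k => (hc (φ k)).meas) (tendsto_pi_nhds.2 hU),
      fun x => ge_of_tendsto' (hU x) fun k => (hc (φ k)).lower x,
      fun x => le_of_tendsto' (hU x) fun k => (hc (φ k)).upper x⟩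
  have hexp : ∀ x, Tendsto (fun k => Real.exp (-(2 * β) * pot μ L (g (φ k)) x)) atTop
      (𝓝 (Real.exp (-(2 * β) * U x))) := fun x => ((hU x).const_mul _).rexp
  have hpart : Tendsto (fun k => part μ β (pot μ L (g (φ k)))) atTop (𝓝 (part μ β U)) :=
    tendsto_integral_of_dominated_convergence (fun _ => Real.exp (2 * β * B))
      (fun k => ((hc (φ k)).bd_exp hβ).meas.aestronglyMeasurable) (integrable_const _)
      (fun k => Eventually.of_forall fun x => ((hc (φ k)).bd_exp hβ).le x)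
      (Eventually.of_forall hexp)
  have hZ : 0 < part μ β U := (h.plow_pos hβ B).trans_le (h.plow_le hβ hcU)
  have hgib : ∀ x, Tendsto (fun k => gibbs μ β (pot μ L (g (φ k))) x) atTop
      (𝓝 (gibbs μ β U x)) := fun x => (hexp x).div hpart hZ.ne'
  have hta : ∀ k, Adm μ M (gibbs μ β (pot μ L (g k))) := fun k => h.gibbs_adm hβ (hc k) hM
  have hfix : pot μ L (gibbs μ β U) = U := by
    funext x
    have h1 : Tendsto (fun k => pot μ L (gibbs μ β (pot μ L (g (φ k)))) x) atTop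
        (𝓝 (pot μ L (gibbs μ β U) x)) := by
      refine tendsto_integral_of_dominated_convergence (fun y => M * |L x y|)
        (fun k => ((h.measx x).mul (hta (φ k)).meas).aestronglyMeasurable)
        ((h.intx x).abs.const_mul _) (fun k => Eventually.of_forall fun y => ?_)
        (Eventually.of_forall fun y => (hgib y).const_mul _)
      rw [Real.norm_eq_abs, abs_mul, mul_comm]
      exact mul_le_mul_of_nonneg_right ((hta (φ k)).bd.le y) (abs_nonneg _)
    have h2 : Tendsto (fun k => pot μ L (g k) x - pot μ L (gibbs μ β (pot μ L (g k))) x) atTop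
        (𝓝 0) := by
      have h3 : Tendsto (fun k => η k * (∫ y, L x y ^ 2 ∂μ + 4 * M * (1 + β * D))) atTop (𝓝 0) := by
        simpa using hηlim.mul_const (∫ y, L x y ^ 2 ∂μ + 4 * M * (1 + β * D))
      refine squeeze_zero_norm (fun k => ?_) h3
      have hd : Bd M (fun y => g k y - gibbs μ β (pot μ L (g k)) y) :=
        ⟨(hg k).meas.sub (hta k).meas, fun y => by
          rw [_root_.abs_le]
          constructor <;> linarith [(hta k).nonneg y, (hta k).le y, (hg k).nonneg y, (hg k).le y]⟩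
      have e : pot μ L (g k) x - pot μ L (gibbs μ β (pot μ L (g k))) x =
          ∫ y, L x y * (g k y - gibbs μ β (pot μ L (g k)) y) ∂μ := by
        refine (integral_sub ((hg k).bd.mul_int (h.intx x)) ((hta k).bd.mul_int (h.intx x))).symm.trans ?_
        exact integral_congr_ae (Eventually.of_forall fun y => by simp only; ring)
      rw [e, Real.norm_eq_abs]
      refine (abs_int_mul_le (h.memLp x) hd (hη k)).trans ?_
      have h4 : (∫ y, (g k y - gibbs μ β (pot μ L (g k)) y) ^ 2 ∂μ) / η k ≤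
          4 * M * (1 + β * D) * η k := by
        rw [div_le_iff₀ (hη k)]
        refine (hnear k).trans (le_of_eq ?_)
        ring
      linarith
    have h5 := (h2.comp hφ.tendsto_atTop).add h1
    simp only [Function.comp_def, sub_add_cancel, zero_add] at h5
    exact tendsto_nhds_unique h5 (hU x)
  refine ⟨M, B, gibbs μ β U, h.gibbs_adm hβ hcU hM, ?_, fun x => ?_⟩
  · rwa [hfix]
  · rw [hfix]

end Pool.Agent.Lib.MP_d59d86_an
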