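import Pool.Agent.Lib.MP_d59d86_an.Defs

/-! Basic Fourier tools: multiplication formula, dilation, convolution, weighted norms. -/

namespace Pool.Agent.Lib.MP_d59d86_an

open MeasureTheory Filter Topology FourierTransform SchwartzMap

variable {n : ℕ}

/-- The character `e^{2πi⟨x,ξ⟩}`. -/
noncomputable def ch (x ξ : E n) : ℂ := (Real.fourierChar (inner ℝ x ξ) : ℂ)

theorem ch_norm (x ξ : E n) : ‖ch x ξ‖ = 1 := Circle.norm_coe _

theorem ch_comm (x ξ : E n) : ch x ξ = ch ξ x := by simp [ch, real_inner_comm]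

theorem ch_cont : Continuous (fun p : E n × E n => ch p.1 p.2) := by
  unfold ch
  exact continuous_subtype_val.comp (Real.continuous_fourierChar.comp (by fun_prop))

theorem ch_zero (x : E n) : ch x 0 = 1 := by simp [ch]

theorem finv_eq (f : E n → ℂ) (w : E n) : 𝓕⁻ f w = ∫ v, ch v w * f v := by
  rw [Real.fourierInv_eq]; simp [ch, Circle.smul_def]

theorem four_eq (f : E n → ℂ) (w : E n) : 𝓕 f w = ∫ v, ch v (-w) * f v := by
  rw [Real.fourier_eq]; simp [ch, Circle.smul_def]

theorem ch_add (x a b : E n) : ch x (a + b) = ch x a * ch x b := by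
  simp [ch, inner_add_right, AddChar.map_add_eq_mul]

theorem ch_neg (x a : E n) : ch x (-a) = ch (-x) a := by simp [ch]

theorem int_ch_prod {F H : E n → ℂ} (hF : Integrable F) (hH : Integrable H)
    {c : E n × E n → ℂ} (hc : Continuous c) (hc1 : ∀ p, ‖c p‖ ≤ 1) :
    Integrable (fun p : E n × E n => c p * (H p.1 * F p.2)) (volume.prod volume) :=
  (hH.mul_prod hF).bdd_mul hc.aestronglyMeasurable (Eventually.of_forall hc1)

theorem mult {F H : E n → ℂ} (hF : Integrable F) (hH : Integrable H) :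
    ∫ x, H x * 𝓕⁻ F x = ∫ ξ, 𝓕⁻ H ξ * F ξ := by
  simp_rw [finv_eq, ← integral_const_mul, ← integral_mul_const]
  have := int_ch_prod hF hH ch_cont (fun p => (ch_norm _ _).le)
  have h2 := integral_integral_swap (f := fun x ξ => ch x ξ * (H x * F ξ)) this
  refine Eq.trans ?_ (h2.trans ?_)
  · refine integral_congr_ae (Eventually.of_forall fun x => integral_congr_ae
      (Eventually.of_forall fun ξ => ?_))
    simp only [ch_comm ξ x]; ring
  · refine integral_congr_ae (Eventually.of_forall fun x => integral_congr_ae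
      (Eventually.of_forall fun ξ => ?_))
    simp only; ring

theorem finv_dil (H : E n → ℂ) {s : ℝ} (hs : 0 < s) (ξ : E n) :
    𝓕⁻ (fun x => H (s • x)) ξ = ((s ^ n)⁻¹ : ℝ) * 𝓕⁻ H (s⁻¹ • ξ) := by
  rw [finv_eq, finv_eq]
  have := Measure.integral_comp_smul (volume : Measure (E n)) (fun x => ch x (s⁻¹ • ξ) * H x) s
  rw [finrank_euclideanSpace_fin, abs_of_pos (by positivity), Complex.real_smul] at this
  rw [← this]
  refine integral_congr_ae (Eventually.of_forall fun x => ?_)
  simp only [ch, inner_smul_left, inner_smul_right]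
  congr 3
  simp [hs.ne']

theorem finv_conv {a b : E n → ℂ} (ha : Integrable a) (hb : Integrable b) (x : E n) :
    𝓕⁻ (fun ξ => a ξ * 𝓕 b ξ) x = ∫ y, 𝓕⁻ a (x - y) * b y := by
  simp_rw [finv_eq, four_eq, ← integral_const_mul, ← integral_mul_const]
  have hc : Continuous (fun p : E n × E n => ch p.1 (x - p.2)) :=
    ch_cont.comp (f := fun p : E n × E n => (p.1, x - p.2)) (by fun_prop)
  have := int_ch_prod hb ha hc (fun p => (ch_norm _ _).le)
  have h2 := integral_integral_swap (f := fun ξ y => ch ξ (x - y) * (a ξ * b y)) this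
  refine Eq.trans ?_ (h2.trans ?_)
  · refine integral_congr_ae (Eventually.of_forall fun ξ => integral_congr_ae
      (Eventually.of_forall fun y => ?_))
    simp only [sub_eq_add_neg, ch_add]
    rw [ch_neg y ξ, ch_comm (-y) ξ]; ring
  · refine integral_congr_ae (Eventually.of_forall fun x => integral_congr_ae
      (Eventually.of_forall fun ξ => ?_))
    simp only; ring

theorem finv_cont {a : E n → ℂ} (ha : Integrable a) : Continuous (𝓕⁻ a) := by
  have : 𝓕⁻ a = fun w => ∫ v, ch v w * a v := funext (finv_eq a)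
  rw [this]
  refine continuous_of_dominated (bound := fun v => ‖a v‖) (fun w => ?_) (fun w => ?_) ha.norm ?_
  · exact (ch_cont.comp (f := fun v : E n => (v, w)) (by fun_prop)).aestronglyMeasurable.mul
      ha.aestronglyMeasurable
  · exact Eventually.of_forall fun v => by rw [norm_mul, ch_norm, one_mul]
  · exact Eventually.of_forall fun v =>
      (ch_cont.comp (f := fun w : E n => (v, w)) (by fun_prop)).mul continuous_const

theorem finv_norm_le (a : E n → ℂ) (x : E n) : ‖𝓕⁻ a x‖ ≤ ∫ v, ‖a v‖ := by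
  rw [finv_eq]
  refine (norm_integral_le_integral_norm _).trans (le_of_eq ?_)
  simp [ch_norm]

/-- Weighted `L¹` norm. -/
noncomputable def wn (k : ℕ) (f : E n → ℂ) : ENNReal :=
  ∫⁻ x, ENNReal.ofReal ((1 + ‖x‖) ^ k) * ‖f x‖ₑ

theorem wn_lt_top_iff (k : ℕ) {f : E n → ℂ} (hf : Continuous f) :
    wn k f < ⊤ ↔ Integrable (fun x => (1 + ‖x‖) ^ k * ‖f x‖) := by
  have hc : Continuous (fun x : E n => (1 + ‖x‖) ^ k * ‖f x‖) := by fun_prop
  rw [Integrable, and_iff_right hc.aestronglyMeasurable, hasFiniteIntegral_iff_enorm]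
  have : wn k f = ∫⁻ x, ‖(1 + ‖x‖) ^ k * ‖f x‖‖ₑ := lintegral_congr fun x => by
    rw [enorm_mul, enorm_norm, Real.enorm_eq_ofReal (by positivity)]
  rw [this]

theorem schwartz_weight (k : ℕ) (f : 𝓢(E n, ℂ)) :
    Integrable (fun x => (1 + ‖x‖) ^ k * ‖f x‖) := by
  simp_rw [add_comm (1 : ℝ), add_pow, Finset.sum_mul]
  refine integrable_finset_sum _ fun i _ => ?_
  have := (f.integrable_pow_mul volume i).const_mul (k.choose i : ℝ)
  refine this.congr (Eventually.of_forall fun x => ?_)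
  simp only; ring

theorem wn_schwartz (k : ℕ) (f : 𝓢(E n, ℂ)) : wn k f < ⊤ :=
  (wn_lt_top_iff k f.continuous).2 (schwartz_weight k f)

theorem wn_conv (k : ℕ) {A b : E n → ℂ} (hA : Continuous A) (hb : Continuous b) :
    wn k (fun x => ∫ y, A (x - y) * b y) ≤ wn k A * wn k b := by
  let w : E n → ENNReal := fun x => ENNReal.ofReal ((1 + ‖x‖) ^ k)
  have hw : Measurable w := by fun_prop
  have h1 : ∀ x, w x * ‖∫ y, A (x - y) * b y‖ₑ ≤
      ∫⁻ y, (w (x - y) * ‖A (x - y)‖ₑ) * (w y * ‖b y‖ₑ) := fun x => by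
    refine (mul_le_mul_right (enorm_integral_le_lintegral_enorm _) _).trans ?_
    rw [← lintegral_const_mul' _ _ ENNReal.ofReal_ne_top]
    refine lintegral_mono fun y => ?_
    have h2 : w x ≤ w (x - y) * w y := by
      simp only [w]
      rw [← ENNReal.ofReal_mul (by positivity), ← mul_pow]
      refine ENNReal.ofReal_le_ofReal (pow_le_pow_left₀ (by positivity) ?_ k)
      have := norm_add_le (x - y) y
      rw [sub_add_cancel] at this
      nlinarith [norm_nonneg (x - y), norm_nonneg y]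
    rw [enorm_mul]
    calc w x * (‖A (x - y)‖ₑ * ‖b y‖ₑ) ≤ (w (x - y) * w y) * (‖A (x - y)‖ₑ * ‖b y‖ₑ) := by gcongr
      _ = _ := by ring
  refine (lintegral_mono h1).trans (le_of_eq ?_)
  have hm : Measurable (Function.uncurry fun x y : E n =>
      (w (x - y) * ‖A (x - y)‖ₑ) * (w y * ‖b y‖ₑ)) := by
    have := hA.measurable
    have := hb.measurable
    unfold Function.uncurry
    fun_prop
  rw [lintegral_lintegral_swap hm.aemeasurable]
  have h3 : ∀ y, ∫⁻ x, (w (x - y) * ‖A (x - y)‖ₑ) * (w y * ‖b y‖ₑ) =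
      wn k A * (w y * ‖b y‖ₑ) := fun y => by
    rw [lintegral_mul_const' _ _ (ENNReal.mul_ne_top ENNReal.ofReal_ne_top enorm_ne_top),
      lintegral_sub_right_eq_self (fun x => w x * ‖A x‖ₑ) y]
    rfl
  simp_rw [h3]
  rw [lintegral_const_mul]
  · rfl
  · have := hb.measurable
    fun_prop

theorem wn_dil (k : ℕ) {A : E n → ℂ} (hA : Continuous A) {s : ℝ} (hs : 0 < s) :
    wn k (fun x => ((s ^ n)⁻¹ : ℝ) * A (s⁻¹ • x)) ≤ ENNReal.ofReal (max 1 s ^ k) * wn k A := by
  let G : E n → ENNReal := fun z => ENNReal.ofReal ((1 + ‖z‖) ^ k) * ‖A z‖ₑ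
  have hG : Measurable G := by
    have := hA.measurable
    fun_prop
  have h1 : ∀ x : E n, ENNReal.ofReal ((1 + ‖x‖) ^ k) * ‖(((s ^ n)⁻¹ : ℝ) : ℂ) * A (s⁻¹ • x)‖ₑ ≤
      ENNReal.ofReal (max 1 s ^ k) * (ENNReal.ofReal ((s ^ n)⁻¹) * G (s⁻¹ • x)) := fun x => by
    have h2 : ENNReal.ofReal ((1 + ‖x‖) ^ k) ≤
        ENNReal.ofReal (max 1 s ^ k) * ENNReal.ofReal ((1 + ‖s⁻¹ • x‖) ^ k) := by
      rw [← ENNReal.ofReal_mul (by positivity), ← mul_pow]
      refine ENNReal.ofReal_le_ofReal (pow_le_pow_left₀ (by positivity) ?_ k)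
      rw [norm_smul, Real.norm_eq_abs, abs_of_pos (inv_pos.2 hs)]
      have h3 : ‖x‖ = s * (s⁻¹ * ‖x‖) := by field_simp
      have h4 : s * (s⁻¹ * ‖x‖) ≤ max 1 s * (s⁻¹ * ‖x‖) :=
        mul_le_mul_of_nonneg_right (le_max_right _ _) (by positivity)
      nlinarith [le_max_left 1 s]
    have h5 : ‖(((s ^ n)⁻¹ : ℝ) : ℂ)‖ₑ = ENNReal.ofReal ((s ^ n)⁻¹) := by
      rw [← ofReal_norm_eq_enorm, Complex.norm_real, Real.norm_eq_abs,
        abs_of_pos (by positivity)]
    rw [enorm_mul, h5]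
    calc _ ≤ (ENNReal.ofReal (max 1 s ^ k) * ENNReal.ofReal ((1 + ‖s⁻¹ • x‖) ^ k)) *
          (ENNReal.ofReal ((s ^ n)⁻¹) * ‖A (s⁻¹ • x)‖ₑ) := by gcongr
      _ = _ := by simp only [G]; ring
  refine (lintegral_mono h1).trans (le_of_eq ?_)
  rw [lintegral_const_mul' _ _ ENNReal.ofReal_ne_top,
    lintegral_const_mul' _ _ ENNReal.ofReal_ne_top]
  congr 1
  have h6 := lintegral_map (μ := (volume : Measure (E n))) hG (measurable_const_smul s⁻¹)
  rw [← h6, Measure.map_addHaar_smul _ (inv_ne_zero hs.ne'), lintegral_smul_measure,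
    finrank_euclideanSpace_fin, smul_eq_mul, ← mul_assoc, ← ENNReal.ofReal_mul (by positivity),
    inv_pow, inv_inv, abs_of_pos (by positivity), inv_mul_cancel₀ (by positivity)]
  simp [G, wn]

end Pool.Agent.Lib.MP_d59d86_an
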