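import Pool.Agent.Lib.MP_d59d86_an.Four1

/-! Decay of `(-Δ)^{n/2} φ` for Schwartz `φ`. -/

namespace Pool.Agent.Lib.MP_d59d86_an

open MeasureTheory Filter Topology FourierTransform SchwartzMap Set ContDiff

variable {n : ℕ}

/-- A bump profile. -/
noncomputable def th0 (s : ℝ) : ℝ := expNegInvGlue (1 - s ^ 2)

theorem th0_nonneg (s : ℝ) : 0 ≤ th0 s := expNegInvGlue.nonneg _

theorem th0_cont : Continuous th0 :=
  (expNegInvGlue.contDiff (n := 0)).continuous.comp (by fun_prop)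

theorem th0_zero {s : ℝ} (hs : 1 ≤ |s|) : th0 s = 0 :=
  expNegInvGlue.zero_of_nonpos (by nlinarith [sq_abs s])

theorem th0_le (s : ℝ) : th0 s ≤ th0 0 :=
  expNegInvGlue.monotone (by nlinarith [sq_nonneg s])

theorem th0_pos {s : ℝ} (hs : |s| < 1) : 0 < th0 s :=
  expNegInvGlue.pos_of_pos (by nlinarith [sq_abs s, abs_nonneg s])

theorem th_smooth : ContDiff ℝ ∞ (fun ξ : E n => th0 ‖ξ‖) :=
  expNegInvGlue.contDiff.comp (contDiff_const.sub (contDiff_norm_sq ℝ))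

theorem th_supp : HasCompactSupport (fun ξ : E n => th0 ‖ξ‖) :=
  HasCompactSupport.intro (isCompact_closedBall (0 : E n) 1) fun x hx =>
    th0_zero (by simp at hx; rw [abs_norm]; exact hx.le)

/-- The bump as a Schwartz function. -/
noncomputable def thS (n : ℕ) : 𝓢(E n, ℂ) :=
  (th_supp.comp_left (g := Complex.ofReal) Complex.ofReal_zero).toSchwartzMap
    (Complex.ofRealCLM.contDiff.comp th_smooth)

theorem thS_apply (ξ : E n) : thS n ξ = th0 ‖ξ‖ := rfl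

theorem int_th0 (k : ℕ) : Integrable (fun s : ℝ => s ^ k * th0 s) := by
  refine Continuous.integrable_of_hasCompactSupport ((continuous_pow k).mul th0_cont) ?_
  refine HasCompactSupport.intro (isCompact_closedBall (0 : ℝ) 1) fun x hx => ?_
  rw [th0_zero (by simp at hx; exact hx.le), mul_zero]

/-- The normalizing constant. -/
noncomputable def cth (k : ℕ) : ℝ := ∫ s in Ioi (0 : ℝ), s ^ k * th0 s

theorem cth_pos (k : ℕ) : 0 < cth k := by
  unfold cth
  rw [setIntegral_pos_iff_support_of_nonneg_ae _ (int_th0 k).integrableOn]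
  · refine lt_of_lt_of_le ?_ (measure_mono (s := Ioo (0 : ℝ) 1) fun s hs => ⟨?_, hs.1⟩)
    · simp
    · exact (mul_pos (pow_pos hs.1 k) (th0_pos (by rw [abs_of_pos hs.1]; exact hs.2))).ne'
  · filter_upwards [ae_restrict_mem measurableSet_Ioi] with s hs
    exact mul_nonneg (pow_nonneg (le_of_lt hs) k) (th0_nonneg s)

/-- The scale kernel. -/
noncomputable def sk (k : ℕ) (r s : ℝ) : ℝ := s ^ k * th0 (s * r) * r ^ (2 * (k + 1))

theorem sk_eq (k : ℕ) (r s : ℝ) : sk k r s = ((s * r) ^ k * th0 (s * r)) * r ^ (k + 2) := by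
  unfold sk; ring

theorem sk_int (k : ℕ) (r : ℝ) : Integrable (sk k r) := by
  rcases eq_or_ne r 0 with rfl | hr
  · have : sk k 0 = fun _ => 0 := by funext s; simp [sk]
    rw [this]; exact integrable_zero _ _ _
  · have := ((int_th0 k).comp_mul_right' hr).mul_const (r ^ (k + 2))
    exact this.congr (Eventually.of_forall fun s => (sk_eq k r s).symm)

theorem sk_integral (k : ℕ) {r : ℝ} (hr : 0 ≤ r) :
    ∫ s in Ioi (0 : ℝ), sk k r s = cth k * r ^ (k + 1) := by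
  rcases hr.eq_or_lt with rfl | hr
  · simp [sk]
  · simp_rw [sk_eq]
    rw [integral_mul_const, integral_comp_mul_right_Ioi (fun s => s ^ k * th0 s) 0 hr, zero_mul,
      smul_eq_mul]
    unfold cth
    field_simp
    ring

theorem sk_cont (k : ℕ) : Continuous (fun p : ℝ × ℝ => sk k p.1 p.2) := by
  have := th0_cont
  unfold sk
  fun_prop

theorem symb_int (φ : 𝓢(E n, ℂ)) (k : ℕ) :
    Integrable (fun ξ : E n => (((2 * Real.pi * ‖ξ‖) ^ k : ℝ) : ℂ) * 𝓕 (φ : E n → ℂ) ξ) := by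
  have h1 := ((𝓕 φ).integrable_pow_mul volume k).const_mul ((2 * Real.pi) ^ k)
  have h2 : Continuous (𝓕 (φ : E n → ℂ)) := (𝓕 φ).continuous
  refine h1.mono' (Continuous.aestronglyMeasurable (by fun_prop)) (Eventually.of_forall fun ξ => ?_)
  rw [norm_mul, Complex.norm_real, Real.norm_eq_abs, abs_of_nonneg (by positivity), mul_pow,
    mul_assoc, fourier_coe]

theorem fracLap_cont (φ : 𝓢(E n, ℂ)) : Continuous (fracLap φ) := finv_cont (symb_int φ n)

theorem fracLap_bdd (φ : 𝓢(E n, ℂ)) : ∃ C, ∀ x, ‖fracLap φ x‖ ≤ C := ⟨_, finv_norm_le _⟩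

/-- The piece at scale `s`. -/
noncomputable def piece (k : ℕ) (φ : 𝓢(E n, ℂ)) (x : E n) (s : ℝ) : ℂ :=
  ∫ ξ, ch ξ x * ((sk k ‖ξ‖ s : ℝ) * (((2 * Real.pi) ^ (k + 1) : ℝ) * 𝓕 (φ : E n → ℂ) ξ))

theorem fracLap_eq_pieces {k : ℕ} (φ : 𝓢(E (k + 1), ℂ)) (x : E (k + 1)) :
    fracLap φ x = ((cth k)⁻¹ : ℝ) * ∫ s in Ioi (0 : ℝ), piece k φ x s := by
  have h2 : Continuous (𝓕 (φ : E (k + 1) → ℂ)) := (𝓕 φ).continuous
  have hsk : Continuous (fun p : E (k + 1) × ℝ => sk k ‖p.1‖ p.2) :=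
    (sk_cont k).comp (f := fun p : E (k + 1) × ℝ => (‖p.1‖, p.2)) (by fun_prop)
  have hch : Continuous (fun ξ : E (k + 1) => ch ξ x) :=
    ch_cont.comp (f := fun ξ : E (k + 1) => (ξ, x)) (by fun_prop)
  have hi : Integrable (Function.uncurry fun (ξ : E (k + 1)) (s : ℝ) =>
      ch ξ x * ((sk k ‖ξ‖ s : ℝ) * (((2 * Real.pi) ^ (k + 1) : ℝ) * 𝓕 (φ : E (k + 1) → ℂ) ξ)))
      (volume.prod (volume.restrict (Ioi 0))) := by
    have hc : Continuous (Function.uncurry fun (ξ : E (k + 1)) (s : ℝ) =>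
      ch ξ x * ((sk k ‖ξ‖ s : ℝ) * (((2 * Real.pi) ^ (k + 1) : ℝ) * 𝓕 (φ : E (k + 1) → ℂ) ξ))) := by
      unfold Function.uncurry
      fun_prop
    rw [integrable_prod_iff hc.aestronglyMeasurable]
    refine ⟨Eventually.of_forall fun ξ => ?_, ?_⟩
    · have h5 : Integrable (fun s => ((sk k ‖ξ‖ s : ℝ) : ℂ)) := (sk_int k ‖ξ‖).ofReal
      simp only [Function.uncurry]
      exact ((h5.mul_const _).const_mul _).restrict
    · refine ((symb_int φ (k + 1)).norm.const_mul (cth k)).congr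
        (Eventually.of_forall fun ξ => ?_)
      simp only [Function.uncurry, norm_mul, ch_norm, one_mul, Complex.norm_real]
      rw [integral_mul_const]
      have : ∫ s in Ioi (0 : ℝ), ‖sk k ‖ξ‖ s‖ = cth k * ‖ξ‖ ^ (k + 1) := by
        rw [← sk_integral k (norm_nonneg ξ)]
        refine setIntegral_congr_fun measurableSet_Ioi fun s hs => ?_
        have hs' : 0 < s := hs
        have := th0_nonneg (s * ‖ξ‖)
        exact Real.norm_of_nonneg (by unfold sk; positivity)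
      rw [this, Real.norm_of_nonneg (by positivity), Real.norm_of_nonneg (by positivity)]
      ring
  unfold piece
  rw [← integral_integral_swap hi, fracLap, finv_eq, ← integral_const_mul]
  refine integral_congr_ae (Eventually.of_forall fun ξ => ?_)
  simp only
  rw [integral_const_mul, integral_mul_const, integral_complex_ofReal,
    sk_integral k (norm_nonneg ξ)]
  have := (cth_pos k).ne'
  have h3 : (cth k : ℂ) ≠ 0 := by exact_mod_cast this
  push_cast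
  field_simp
  ring

/-- Multiplication by `(2π)^n ‖ξ‖^{2n}`. -/
noncomputable def polS (f : 𝓢(E n, ℂ)) : 𝓢(E n, ℂ) :=
  smulLeftCLM ℂ (fun ξ : E n => (((2 * Real.pi) ^ n * (‖ξ‖ ^ 2) ^ n : ℝ) : ℂ)) f

theorem polS_apply (f : 𝓢(E n, ℂ)) (ξ : E n) :
    polS f ξ = (((2 * Real.pi) ^ n * (‖ξ‖ ^ 2) ^ n : ℝ) : ℂ) * f ξ := by
  unfold polS
  rw [smulLeftCLM_apply_apply (by fun_prop), smul_eq_mul]

theorem wn_piece_aux (k : ℕ) (a b : 𝓢(E n, ℂ)) {s : ℝ} (hs : 0 < s) :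
    wn k (𝓕⁻ (fun ξ => a (s • ξ) * 𝓕 (b : E n → ℂ) ξ)) ≤
      ENNReal.ofReal (max 1 s ^ k) * wn k (𝓕⁻ a : 𝓢(E n, ℂ)) * wn k b := by
  have ha : Integrable (fun ξ : E n => a (s • ξ)) := a.integrable.comp_smul hs.ne'
  have e : 𝓕⁻ (fun ξ => a (s • ξ) * 𝓕 (b : E n → ℂ) ξ) =
      fun x => ∫ y, 𝓕⁻ (fun ξ : E n => a (s • ξ)) (x - y) * b y :=
    funext (finv_conv ha b.integrable)
  rw [e]
  refine (wn_conv k (finv_cont ha) b.continuous).trans (mul_le_mul_left ?_ _)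
  have e2 : 𝓕⁻ (fun ξ : E n => a (s • ξ)) =
      fun x => ((s ^ n)⁻¹ : ℝ) * (𝓕⁻ a : 𝓢(E n, ℂ)) (s⁻¹ • x) := by
    funext x
    rw [finv_dil a hs, fourierInv_coe]
  rw [e2]
  exact wn_dil k (𝓕⁻ a : 𝓢(E n, ℂ)).continuous hs

theorem wn_const_mul (k : ℕ) (f : E n → ℂ) {c : ℝ} (hc : 0 ≤ c) :
    wn k (fun x => (c : ℂ) * f x) = ENNReal.ofReal c * wn k f := by
  unfold wn
  rw [← lintegral_const_mul' _ _ ENNReal.ofReal_ne_top]
  refine lintegral_congr fun x => ?_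
  rw [enorm_mul, ← ofReal_norm_eq_enorm (c : ℂ), Complex.norm_real, Real.norm_of_nonneg hc]
  ring

theorem wn_piece {k : ℕ} (φ : 𝓢(E (k + 1), ℂ)) : ∃ C : ENNReal, C < ⊤ ∧ ∀ s, 0 < s →
    wn k (fun x => piece k φ x s) ≤ C * ENNReal.ofReal ((1 + s ^ 2)⁻¹) := by
  let C1 := wn k (𝓕⁻ (thS (k + 1)) : 𝓢(E (k + 1), ℂ)) *
    wn k (𝓕⁻ (polS (𝓕 φ)) : 𝓢(E (k + 1), ℂ))
  let C2 := wn k (𝓕⁻ (polS (thS (k + 1))) : 𝓢(E (k + 1), ℂ)) * wn k φ
  have h1 : C1 < ⊤ := ENNReal.mul_lt_top (wn_schwartz _ _) (wn_schwartz _ _)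
  have h2 : C2 < ⊤ := ENNReal.mul_lt_top (wn_schwartz _ _) (wn_schwartz _ _)
  refine ⟨(C1 + C2) * ENNReal.ofReal 2,
    ENNReal.mul_lt_top (ENNReal.add_lt_top.2 ⟨h1, h2⟩) ENNReal.ofReal_lt_top, fun s hs => ?_⟩
  rw [mul_assoc, ← ENNReal.ofReal_mul (by norm_num)]
  rcases le_total s 1 with h | h
  · have e : (fun x => piece k φ x s) = fun x => ((s ^ k : ℝ) : ℂ) *
        𝓕⁻ (fun ξ => thS (k + 1) (s • ξ) *
          𝓕 ((𝓕⁻ (polS (𝓕 φ)) : 𝓢(E (k + 1), ℂ)) : E (k + 1) → ℂ) ξ) x := by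
      funext x
      rw [finv_eq, ← integral_const_mul, ← fourier_coe, fourier_fourierInv_eq]
      refine integral_congr_ae (Eventually.of_forall fun ξ => ?_)
      simp only [thS_apply, polS_apply, sk, norm_smul, Real.norm_of_nonneg hs.le, fourier_coe]
      push_cast
      ring
    rw [e, wn_const_mul _ _ (by positivity)]
    have h3 := wn_piece_aux k (thS (k + 1)) (𝓕⁻ (polS (𝓕 φ))) hs
    rw [max_eq_left h, one_pow, ENNReal.ofReal_one, one_mul] at h3
    rw [mul_comm]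
    refine mul_le_mul' (h3.trans le_self_add) (ENNReal.ofReal_le_ofReal ?_)
    have h4 : s ^ k ≤ 1 := pow_le_one₀ hs.le h
    rw [← div_eq_mul_inv, le_div_iff₀ (by positivity)]
    nlinarith [pow_pos hs k]
  · have e : (fun x => piece k φ x s) = fun x => ((s ^ k / s ^ (2 * (k + 1)) : ℝ) : ℂ) *
        𝓕⁻ (fun ξ => polS (thS (k + 1)) (s • ξ) * 𝓕 (φ : E (k + 1) → ℂ) ξ) x := by
      funext x
      rw [finv_eq, ← integral_const_mul]
      refine integral_congr_ae (Eventually.of_forall fun ξ => ?_)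
      simp only [thS_apply, polS_apply, sk, norm_smul, Real.norm_of_nonneg hs.le]
      have : (s : ℂ) ≠ 0 := by exact_mod_cast hs.ne'
      push_cast
      field_simp
      ring
    rw [e, wn_const_mul _ _ (by positivity)]
    have h3 := wn_piece_aux k (polS (thS (k + 1))) φ hs
    rw [max_eq_right h, mul_assoc] at h3
    refine (mul_le_mul_right h3 _).trans ?_
    rw [← mul_assoc, ← ENNReal.ofReal_mul (by positivity), mul_comm]
    refine mul_le_mul' le_add_self (ENNReal.ofReal_le_ofReal ?_)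
    have e2 : s ^ k / s ^ (2 * (k + 1)) * s ^ k = 1 / s ^ 2 := by field_simp; ring
    rw [e2, ← div_eq_mul_inv, div_le_div_iff₀ (by positivity) (by positivity)]
    nlinarith

theorem fracLap_weight {k : ℕ} (φ : 𝓢(E (k + 1), ℂ)) :
    Integrable (fun x => (1 + ‖x‖) ^ k * ‖fracLap φ x‖) := by
  rw [← wn_lt_top_iff k (fracLap_cont φ), funext (fracLap_eq_pieces φ),
    wn_const_mul _ _ (inv_pos.2 (cth_pos k)).le]
  refine ENNReal.mul_lt_top ENNReal.ofReal_lt_top ?_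
  obtain ⟨C, hC, hw⟩ := wn_piece φ
  have h2 : Continuous (𝓕 (φ : E (k + 1) → ℂ)) := (𝓕 φ).continuous
  have hm : StronglyMeasurable (fun p : E (k + 1) × ℝ => piece k φ p.1 p.2) := by
    have hsk : Continuous (fun q : (E (k + 1) × ℝ) × E (k + 1) => sk k ‖q.2‖ q.1.2) :=
      (sk_cont k).comp (f := fun q : (E (k + 1) × ℝ) × E (k + 1) => (‖q.2‖, q.1.2)) (by fun_prop)
    have hch : Continuous (fun q : (E (k + 1) × ℝ) × E (k + 1) => ch q.2 q.1.1) :=
      ch_cont.comp (f := fun q : (E (k + 1) × ℝ) × E (k + 1) => (q.2, q.1.1)) (by fun_prop)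
    have hc : Continuous (fun q : (E (k + 1) × ℝ) × E (k + 1) => ch q.2 q.1.1 *
        ((sk k ‖q.2‖ q.1.2 : ℝ) * (((2 * Real.pi) ^ (k + 1) : ℝ) *
          𝓕 (φ : E (k + 1) → ℂ) q.2))) := by fun_prop
    exact hc.stronglyMeasurable.integral_prod_right'
  have h1 : wn k (fun x => ∫ s in Ioi (0 : ℝ), piece k φ x s) ≤
      ∫⁻ x, ∫⁻ s in Ioi (0 : ℝ), ENNReal.ofReal ((1 + ‖x‖) ^ k) * ‖piece k φ x s‖ₑ := by
    refine lintegral_mono fun x => ?_
    simp only
    rw [lintegral_const_mul' _ _ ENNReal.ofReal_ne_top]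
    exact mul_le_mul_right (enorm_integral_le_lintegral_enorm _) _
  refine h1.trans_lt ?_
  have hm2 : Measurable (Function.uncurry fun (x : E (k + 1)) (s : ℝ) =>
      ENNReal.ofReal ((1 + ‖x‖) ^ k) * ‖piece k φ x s‖ₑ) :=
    Measurable.mul (by fun_prop) hm.measurable.enorm
  rw [lintegral_lintegral_swap hm2.aemeasurable]
  have h3 : ∫⁻ s in Ioi (0 : ℝ), ∫⁻ x, ENNReal.ofReal ((1 + ‖x‖) ^ k) * ‖piece k φ x s‖ₑ ≤
      ∫⁻ s in Ioi (0 : ℝ), C * ENNReal.ofReal ((1 + s ^ 2)⁻¹) :=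
    setLIntegral_mono' measurableSet_Ioi fun s hs => hw s hs
  refine h3.trans_lt ?_
  rw [lintegral_const_mul' _ _ hC.ne]
  refine ENNReal.mul_lt_top hC ?_
  exact (integrable_inv_one_add_sq.integrableOn (s := Ioi 0)).lintegral_lt_top

end Pool.Agent.Lib.MP_d59d86_an
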