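import Pool.Agent.Lib.MP_d59d86_an.Defs
import Pool.Agent.Lib.MP_d59d86_an.Alg

/-! A Lojasiewicz inequality at infinity for polynomials tending to `-∞`. -/

namespace Pool.Agent.Lib.MP_d59d86_an

open Filter Topology

theorem pev_hasStrictFDerivAt {n : ℕ} (p : MvPolynomial (Fin n) ℝ) (x : E n) :
    HasStrictFDerivAt (pev p)
      (∑ i, pev (MvPolynomial.pderiv i p) x • (EuclideanSpace.proj i : E n →L[ℝ] ℝ)) x := by
  induction p using MvPolynomial.induction_on with
  | C r =>
    have : pev (MvPolynomial.C r : MvPolynomial (Fin n) ℝ) = fun _ => r := by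
      ext y; simp [pev]
    rw [this]
    simpa [pev] using hasStrictFDerivAt_const r x
  | add p q hp hq =>
    have : pev (p + q) = fun y => pev p y + pev q y := by ext y; simp [pev]
    rw [this]
    refine (hp.add hq).congr_fderiv ?_
    simp [pev, add_smul, Finset.sum_add_distrib]
  | mul_X p j hp =>
    have : pev (p * MvPolynomial.X j) = fun y => pev p y * y j := by ext y; simp [pev]
    rw [this]
    have hj : HasStrictFDerivAt (fun y : E n => y j) (EuclideanSpace.proj j : E n →L[ℝ] ℝ) x :=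
      (EuclideanSpace.proj j : E n →L[ℝ] ℝ).hasStrictFDerivAt
    refine (hp.mul hj).congr_fderiv ?_
    ext v
    simp only [pev, Derivation.leibniz, MvPolynomial.pderiv_X, smul_eq_mul, map_add, map_mul,
      MvPolynomial.eval_X, ContinuousLinearMap.add_apply, ContinuousLinearMap.smul_apply,
      ContinuousLinearMap.sum_apply, add_mul, Finset.sum_add_distrib, Finset.mul_sum]
    congr 1
    · rw [Finset.sum_eq_single j]
      · simp
      · intro i _ hij
        simp [Ne.symm hij]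
      · simp
    · exact Finset.sum_congr rfl fun i _ => by ring

theorem pev_continuous {n : ℕ} (p : MvPolynomial (Fin n) ℝ) : Continuous (pev p) :=
  continuous_iff_continuousAt.2 fun x => (pev_hasStrictFDerivAt p x).continuousAt

theorem poly_bound (f : Polynomial ℝ) (D : ℕ) (hD : f.natDegree ≤ D) :
    ∃ C, 0 ≤ C ∧ ∀ t : ℝ, |f.eval t| ≤ C * (1 + |t|) ^ D := by
  refine ⟨∑ i ∈ Finset.range (f.natDegree + 1), |f.coeff i|, by positivity, fun t => ?_⟩
  rw [Polynomial.eval_eq_sum_range, Finset.sum_mul]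
  refine (Finset.abs_sum_le_sum_abs _ _).trans (Finset.sum_le_sum fun i hi => ?_)
  rw [abs_mul, abs_pow]
  have h1 : (1 : ℝ) ≤ 1 + |t| := by linarith [abs_nonneg t]
  have h2 : |t| ^ i ≤ (1 + |t|) ^ D :=
    (pow_le_pow_left₀ (abs_nonneg t) (by linarith) i).trans
      (pow_le_pow_right₀ h1 (by have := Finset.mem_range.1 hi; omega))
  exact mul_le_mul_of_nonneg_left h2 (abs_nonneg _)

theorem poly_lower (f : Polynomial ℝ) (hf : f ≠ 0) :
    ∃ c, 0 < c ∧ ∀ᶠ t in atTop, c ≤ |f.eval t| := by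
  by_cases h : 0 < f.degree
  · exact ⟨1, one_pos, (f.abs_tendsto_atTop h).eventually_ge_atTop 1⟩
  · have h0 := Polynomial.eq_C_of_degree_le_zero (not_lt.1 h)
    refine ⟨|f.coeff 0|, abs_pos.2 fun h1 => hf (by rw [h0, h1]; simp), Eventually.of_forall
      fun t => ?_⟩
    rw [h0]; simp

theorem root_bound (G : Polynomial (Polynomial ℝ)) (hG : G ≠ 0) :
    ∃ (C : ℝ) (D : ℕ) (T : ℝ), 0 ≤ C ∧ ∀ s t : ℝ, T ≤ t → Polynomial.evalEval t s G = 0 →
      |s| ≤ C * (1 + |t|) ^ D := by
  obtain ⟨c, hc, hev⟩ := poly_lower G.leadingCoeff (Polynomial.leadingCoeff_ne_zero.2 hG)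
  obtain ⟨T, hT⟩ := eventually_atTop.1 hev
  let D := (Finset.range G.natDegree).sup fun i => (G.coeff i).natDegree
  have hb : ∀ i ∈ Finset.range G.natDegree, ∃ C, 0 ≤ C ∧
      ∀ t : ℝ, |(G.coeff i).eval t| ≤ C * (1 + |t|) ^ D := fun i hi =>
    poly_bound _ D (Finset.le_sup (f := fun i => (G.coeff i).natDegree) hi)
  choose! C hC0 hC using hb
  let C' := ∑ i ∈ Finset.range G.natDegree, C i
  have hC' : 0 ≤ C' := Finset.sum_nonneg hC0
  refine ⟨C' / c + 1, D, T, by positivity, fun s t ht hroot => ?_⟩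
  let g : Polynomial ℝ := G.map (Polynomial.evalRingHom t)
  have hlc : (Polynomial.evalRingHom t) G.leadingCoeff ≠ 0 := by
    have := hT t ht
    intro h
    rw [Polynomial.coe_evalRingHom] at h
    rw [h] at this; simp at this; linarith
  have hdeg : g.natDegree = G.natDegree := Polynomial.natDegree_map_of_leadingCoeff_ne_zero _ hlc
  have hl : g.leadingCoeff = G.leadingCoeff.eval t :=
    Polynomial.leadingCoeff_map_of_leadingCoeff_ne_zero _ hlc
  have hg0 : g ≠ 0 := by
    intro h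
    rw [h, Polynomial.leadingCoeff_zero] at hl
    exact hlc hl.symm
  have hr : g.IsRoot s := by
    rw [Polynomial.IsRoot, Polynomial.map_evalRingHom_eval]; exact hroot
  have hcb := hr.norm_lt_cauchyBound hg0
  have h1 : (1 : ℝ) ≤ (1 + |t|) ^ D := one_le_pow₀ (by linarith [abs_nonneg t])
  have hsup : (((Finset.range g.natDegree).sup (fun i => ‖g.coeff i‖₊) : NNReal) : ℝ)
      ≤ C' * (1 + |t|) ^ D := by
    have : (Finset.range g.natDegree).sup (fun i => ‖g.coeff i‖₊)
        ≤ ⟨C' * (1 + |t|) ^ D, by positivity⟩ := by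
      refine Finset.sup_le fun i hi => ?_
      rw [hdeg] at hi
      change ‖g.coeff i‖ ≤ C' * (1 + |t|) ^ D
      have : g.coeff i = (G.coeff i).eval t := by simp [g]
      rw [this, Real.norm_eq_abs]
      refine (hC i hi t).trans (mul_le_mul_of_nonneg_right ?_ (by positivity))
      exact Finset.single_le_sum hC0 hi
    exact this
  have h2 : |s| < (((Finset.range g.natDegree).sup (fun i => ‖g.coeff i‖₊) : NNReal) : ℝ)
      / |G.leadingCoeff.eval t| + 1 := by
    have : ((‖s‖₊ : NNReal) : ℝ) < (g.cauchyBound : ℝ) := hcb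
    rw [Polynomial.cauchyBound] at this
    simpa [hl] using this
  have h3 : (((Finset.range g.natDegree).sup (fun i => ‖g.coeff i‖₊) : NNReal) : ℝ)
      / |G.leadingCoeff.eval t| ≤ C' * (1 + |t|) ^ D / c :=
    div_le_div₀ (by positivity) hsup hc (hT t ht)
  have : (C' / c + 1) * (1 + |t|) ^ D = C' * (1 + |t|) ^ D / c + (1 + |t|) ^ D := by ring
  linarith

theorem exists_crit {n : ℕ} (q : MvPolynomial (Fin n) ℝ) (x : E n) (hx : x ≠ 0) :
    ∃ y : E n, ‖y‖ = ‖x‖ ∧ pev q y ≤ pev q x ∧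
      ∀ i j, y i * pev (MvPolynomial.pderiv j q) y = y j * pev (MvPolynomial.pderiv i q) y := by
  obtain ⟨y, hy, hmin⟩ := (isCompact_sphere (0 : E n) ‖x‖).exists_isMinOn ⟨x, by simp⟩
    (pev_continuous q).continuousOn
  have hy' : ‖y‖ = ‖x‖ := by simpa using hy
  refine ⟨y, hy', hmin (by simp), ?_⟩
  have hS : {z : E n | ‖z‖ ^ 2 = ‖y‖ ^ 2} = Metric.sphere (0 : E n) ‖x‖ := by
    ext z
    simp [hy', sq_eq_sq₀]
  have hext : IsLocalExtrOn (pev q) {z : E n | ‖z‖ ^ 2 = ‖y‖ ^ 2} y := by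
    rw [hS]; exact Or.inl hmin.localize
  obtain ⟨a, b, hab, h⟩ := IsLocalExtrOn.exists_multipliers_of_hasStrictFDerivAt_1d hext
    (hasStrictFDerivAt_norm_sq y) (pev_hasStrictFDerivAt q y)
  have hk : ∀ i, a * (2 * y i) + b * pev (MvPolynomial.pderiv i q) y = 0 := fun i => by
    have := congrArg (fun L : E n →L[ℝ] ℝ => L (EuclideanSpace.single i 1)) h
    simp only [ContinuousLinearMap.add_apply, ContinuousLinearMap.smul_apply,
      ContinuousLinearMap.sum_apply, smul_eq_mul, ContinuousLinearMap.zero_apply] at this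
    rw [Finset.sum_eq_single i] at this
    · simpa [EuclideanSpace.inner_single_right] using this
    · intro j _ hij
      simp [hij]
    · simp
  have hb : b ≠ 0 := by
    rintro rfl
    have ha : a ≠ 0 := fun h => hab (by simp [h])
    have : y = 0 := by
      ext i
      have := hk i
      simp only [zero_mul, add_zero, mul_eq_zero, ha, false_or] at this
      simpa using this
    rw [this, norm_zero] at hy'
    exact hx (norm_eq_zero.1 hy'.symm)
  intro i j
  apply mul_left_cancel₀ hb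
  linear_combination y i * hk j - y j * hk i

theorem loj_aux {n : ℕ} (q : MvPolynomial (Fin n) ℝ)
    (hq : Tendsto (pev q) (cocompact (E n)) atTop) :
    ∃ (C : ℝ) (D : ℕ), 0 ≤ C ∧ ∀ᶠ x in cocompact (E n), 0 ≤ pev q x ∧
      ‖x‖ ^ 2 ≤ C * (1 + pev q x) ^ D := by
  obtain ⟨G, hG, hrel⟩ := exists_relation q
  obtain ⟨C, D, T, hC, hroot⟩ := root_bound G hG
  have h1 := hq.eventually_ge_atTop (max T 0)
  rw [← Metric.cobounded_eq_cocompact, ← comap_norm_atTop] at h1 ⊢
  obtain ⟨R, hR⟩ := eventually_atTop.1 (eventually_comap.1 h1)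
  refine ⟨C, D, hC, eventually_comap.2 (eventually_atTop.2 ⟨max R 1, fun r hr x hx => ?_⟩)⟩
  have hx0 : x ≠ 0 := by
    rintro rfl
    have := le_trans (le_max_right _ _) hr
    rw [← hx, norm_zero] at this; linarith
  obtain ⟨y, hy, hle, hcrit⟩ := exists_crit q x hx0
  have hyT := hR r (le_trans (le_max_left _ _) hr) y (hy.trans hx)
  have hy0 : 0 ≤ pev q y := le_trans (le_max_right _ _) hyT
  refine ⟨hy0.trans hle, ?_⟩
  have h2 := hroot (∑ i, y i ^ 2) (pev q y) (le_trans (le_max_left _ _) hyT)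
    (hrel (fun i => y i) hcrit)
  have h3 : ∑ i, y i ^ 2 = ‖x‖ ^ 2 := by
    rw [← hy, EuclideanSpace.real_norm_sq_eq]
  rw [h3, abs_of_nonneg (by positivity), abs_of_nonneg hy0] at h2
  refine h2.trans (mul_le_mul_of_nonneg_left (pow_le_pow_left₀ (by linarith) (by linarith) D) hC)

/-- `e^{c p}` decays faster than every power. -/
theorem loj {n : ℕ} (p : MvPolynomial (Fin n) ℝ)
    (hp : Tendsto (pev p) (cocompact (E n)) atBot) (c : ℝ) (hc : 0 < c) (K : ℕ) :
    ∃ C, ∀ x : E n, Real.exp (c * pev p x) * (1 + ‖x‖) ^ K ≤ C := by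
  have hneg : pev (-p) = fun x => -pev p x := by ext x; simp [pev]
  obtain ⟨C, D, hC, hev⟩ := loj_aux (-p) (by rw [hneg]; exact tendsto_neg_atBot_atTop.comp hp)
  obtain ⟨S, hS, hSc⟩ := mem_cocompact.1 hev
  have hcont : Continuous fun x : E n => Real.exp (c * pev p x) * (1 + ‖x‖) ^ K := by
    have := pev_continuous p
    fun_prop
  obtain ⟨C1, hC1⟩ := hS.exists_bound_of_continuousOn hcont.continuousOn
  refine ⟨max C1 ((2 + C) ^ K * ((D * K).factorial * Real.exp c / c ^ (D * K))), fun x => ?_⟩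
  by_cases hx : x ∈ S
  · exact le_trans (le_trans (le_abs_self _) (hC1 x hx)) (le_max_left _ _)
  · refine le_trans ?_ (le_max_right _ _)
    obtain ⟨h0, h1⟩ := hSc hx
    rw [hneg] at h0 h1
    simp only at h0 h1
    set s := -pev p x with hs
    have hD : (1 : ℝ) ≤ (1 + s) ^ D := one_le_pow₀ (by linarith)
    have h2 : 1 + ‖x‖ ≤ (2 + C) * (1 + s) ^ D := by nlinarith [sq_nonneg (‖x‖ - 1), norm_nonneg x]
    have h3 : (1 + ‖x‖) ^ K ≤ (2 + C) ^ K * (1 + s) ^ (D * K) := by
      rw [pow_mul, ← mul_pow]; exact pow_le_pow_left₀ (by positivity) h2 K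
    have h4 := Real.pow_div_factorial_le_exp (c * (1 + s)) (by positivity) (D * K)
    have h5 : Real.exp (c * pev p x) * (1 + s) ^ (D * K)
        ≤ (D * K).factorial * Real.exp c / c ^ (D * K) := by
      rw [le_div_iff₀ (by positivity)]
      rw [div_le_iff₀ (by positivity), mul_pow] at h4
      have e1 : Real.exp (c * (1 + s)) * Real.exp (c * pev p x) = Real.exp c := by
        rw [← Real.exp_add]; congr 1; rw [hs]; ring
      calc Real.exp (c * pev p x) * (1 + s) ^ (D * K) * c ^ (D * K)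
          = Real.exp (c * pev p x) * (c ^ (D * K) * (1 + s) ^ (D * K)) := by ring
        _ ≤ Real.exp (c * pev p x) * (Real.exp (c * (1 + s)) * (D * K).factorial) :=
          mul_le_mul_of_nonneg_left h4 (Real.exp_pos _).le
        _ = (D * K).factorial * Real.exp c := by rw [← e1]; ring
    calc Real.exp (c * pev p x) * (1 + ‖x‖) ^ K
        ≤ Real.exp (c * pev p x) * ((2 + C) ^ K * (1 + s) ^ (D * K)) :=
          mul_le_mul_of_nonneg_left h3 (Real.exp_pos _).le
      _ = (2 + C) ^ K * (Real.exp (c * pev p x) * (1 + s) ^ (D * K)) := by ring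
      _ ≤ _ := mul_le_mul_of_nonneg_left h5 (by positivity)

/-- Polynomial growth. -/
theorem pev_growth {n : ℕ} (p : MvPolynomial (Fin n) ℝ) (D : ℕ) (hD : p.totalDegree ≤ D) :
    ∃ C, 0 ≤ C ∧ ∀ x : E n, |pev p x| ≤ C * (1 + ‖x‖) ^ D := by
  refine ⟨∑ d ∈ p.support, |p.coeff d|, by positivity, fun x => ?_⟩
  rw [pev, MvPolynomial.eval_eq', Finset.sum_mul]
  refine (Finset.abs_sum_le_sum_abs _ _).trans (Finset.sum_le_sum fun d hd => ?_)
  rw [abs_mul]
  refine mul_le_mul_of_nonneg_left ?_ (abs_nonneg _)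
  have h1 : (1 : ℝ) ≤ 1 + ‖x‖ := by linarith [norm_nonneg x]
  have h2 : ∑ i, d i ≤ D := by
    refine le_trans ?_ hD
    have := MvPolynomial.le_totalDegree hd
    rwa [Finsupp.sum_fintype _ _ (fun _ => rfl)] at this
  calc |∏ i, x i ^ d i| = ∏ i, |x i| ^ d i := by simp [Finset.abs_prod]
    _ ≤ ∏ i, (1 + ‖x‖) ^ d i := by
        refine Finset.prod_le_prod (fun i _ => by positivity) fun i _ => ?_
        refine pow_le_pow_left₀ (abs_nonneg _) ?_ _
        have := PiLp.norm_apply_le x i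
        rw [Real.norm_eq_abs] at this; linarith
    _ = (1 + ‖x‖) ^ ∑ i, d i := Finset.prod_pow_eq_pow_sum _ _ _
    _ ≤ _ := pow_le_pow_right₀ h1 h2

end Pool.Agent.Lib.MP_d59d86_an
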