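import Pool.Agent.Lib.MP_d59d86_an.Four2
import Pool.Agent.Lib.MP_d59d86_an.Loj

/-! Vanishing moments of `(-Δ)^{n/2} φ`. -/

namespace Pool.Agent.Lib.MP_d59d86_an

open MeasureTheory Filter Topology FourierTransform SchwartzMap Set ContDiff

theorem int_mul_fracLap {k : ℕ} (φ : 𝓢(E (k + 1), ℂ)) {q : E (k + 1) → ℝ}
    (hq : AEStronglyMeasurable q volume) {C : ℝ} (hC : ∀ x, |q x| ≤ C * (1 + ‖x‖) ^ k) :
    Integrable (fun x => (q x : ℂ) * fracLap φ x) := by
  refine ((fracLap_weight φ).const_mul C).mono'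
    ((Complex.continuous_ofReal.comp_aestronglyMeasurable hq).mul
      (fracLap_cont φ).aestronglyMeasurable) (Eventually.of_forall fun x => ?_)
  rw [norm_mul, Complex.norm_real, Real.norm_eq_abs, ← mul_assoc]
  exact mul_le_mul_of_nonneg_right (hC x) (norm_nonneg _)

theorem moment_hom {k j : ℕ} (hj : j ≤ k) (φ : 𝓢(E (k + 1), ℂ)) {q : E (k + 1) → ℝ}
    (hq : ContDiff ℝ ∞ q) (hhom : ∀ (ε : ℝ) x, q (ε • x) = ε ^ j * q x)
    {C : ℝ} (hC : ∀ x, |q x| ≤ C * (1 + ‖x‖) ^ k) :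
    ∫ x, (q x : ℂ) * fracLap φ x = 0 := by
  have hs : HasCompactSupport (fun x : E (k + 1) => ((q x * th0 ‖x‖ : ℝ) : ℂ)) :=
    (th_supp.mul_left (f := q)).comp_left (g := Complex.ofReal) Complex.ofReal_zero
  let H : 𝓢(E (k + 1), ℂ) :=
    hs.toSchwartzMap (Complex.ofRealCLM.contDiff.comp (hq.mul th_smooth))
  have hH : ∀ x, H x = ((q x * th0 ‖x‖ : ℝ) : ℂ) := fun x => rfl
  obtain ⟨B, -, hB⟩ := (𝓕 φ).decay 0 0
  simp only [pow_zero, norm_iteratedFDeriv_zero, one_mul, fourier_coe] at hB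
  let G : E (k + 1) → ℝ := fun ζ =>
    (B * (2 * Real.pi) ^ (k + 1)) * (‖ζ‖ ^ (k + 1) * ‖(𝓕⁻ H : 𝓢(E (k + 1), ℂ)) ζ‖)
  have hG : Integrable G := ((𝓕⁻ H : 𝓢(E (k + 1), ℂ)).integrable_pow_mul volume _).const_mul _
  have hB0 : 0 ≤ B := (norm_nonneg _).trans (hB 0)
  have hG0 : 0 ≤ ∫ ζ, G ζ := integral_nonneg fun ζ => by positivity
  have key : ∀ ε : ℝ, 0 < ε → ε ≤ 1 →
      ‖∫ x, (th0 ‖ε • x‖ : ℂ) * ((q x : ℂ) * fracLap φ x)‖ ≤ ε * ∫ ζ, G ζ := by
    intro ε hε hε1
    have h1 : (ε ^ j : ℝ) * ∫ x, (th0 ‖ε • x‖ : ℂ) * ((q x : ℂ) * fracLap φ x) =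
        ∫ x, H (ε • x) * fracLap φ x := by
      rw [← integral_const_mul]
      refine integral_congr_ae (Eventually.of_forall fun x => ?_)
      simp only [hH, hhom]
      push_cast
      ring
    have h2 := mult (symb_int φ (k + 1)) (H.integrable.comp_smul hε.ne')
    have h3 : ‖∫ x, H (ε • x) * fracLap φ x‖ ≤ ∫ ξ, G (ε⁻¹ • ξ) := by
      unfold fracLap
      rw [h2]
      refine norm_integral_le_of_norm_le (hG.comp_smul (inv_ne_zero hε.ne'))
        (Eventually.of_forall fun ξ => ?_)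
      rw [finv_dil H hε, ← fourierInv_coe]
      simp only [G, norm_mul, Complex.norm_real, norm_smul]
      rw [Real.norm_of_nonneg (by positivity), Real.norm_of_nonneg (by positivity),
        Real.norm_of_nonneg (by positivity)]
      calc _ ≤ (ε ^ (k + 1))⁻¹ * ‖(𝓕⁻ H : 𝓢(E (k + 1), ℂ)) (ε⁻¹ • ξ)‖ *
            ((2 * Real.pi * ‖ξ‖) ^ (k + 1) * B) := by gcongr; exact hB ξ
        _ = _ := by simp only [mul_pow, inv_pow]; ring
    rw [Measure.integral_comp_inv_smul_of_nonneg _ _ hε.le, finrank_euclideanSpace_fin, ← h1,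
      norm_mul, Complex.norm_real, Real.norm_of_nonneg (by positivity), smul_eq_mul] at h3
    have h4 : ε ^ (k + 1) ≤ ε ^ j * ε := by
      rw [← pow_succ]
      exact pow_le_pow_of_le_one hε.le hε1 (by omega)
    have h5 := h3.trans (mul_le_mul_of_nonneg_right h4 hG0)
    rw [mul_assoc] at h5
    exact le_of_mul_le_mul_left h5 (pow_pos hε j)
  let η : ℕ → ℝ := fun m => 1 / ((m : ℝ) + 1)
  have hη : ∀ m, 0 < η m := fun m => Nat.one_div_pos_of_nat
  have hη1 : ∀ m, η m ≤ 1 := fun m => by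
    simp only [η]; rw [div_le_one (by positivity)]; linarith [(Nat.cast_nonneg m : (0 : ℝ) ≤ m)]
  have hηlim : Tendsto η atTop (𝓝 0) := tendsto_one_div_add_atTop_nhds_zero_nat
  have hi := int_mul_fracLap φ hq.continuous.aestronglyMeasurable hC
  have l1 : Tendsto (fun m => ∫ x, (th0 ‖η m • x‖ : ℂ) * ((q x : ℂ) * fracLap φ x)) atTop
      (𝓝 (∫ x, (th0 0 : ℂ) * ((q x : ℂ) * fracLap φ x))) := by
    have hth := th0_cont
    refine tendsto_integral_of_dominated_convergence (fun x => th0 0 * ‖(q x : ℂ) * fracLap φ x‖)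
      (fun m => AEStronglyMeasurable.mul (Continuous.aestronglyMeasurable (by fun_prop))
        hi.aestronglyMeasurable) (hi.norm.const_mul _)
      (fun m => Eventually.of_forall fun x => ?_) (Eventually.of_forall fun x => ?_)
    · rw [norm_mul, Complex.norm_real, Real.norm_of_nonneg (th0_nonneg _)]
      exact mul_le_mul_of_nonneg_right (th0_le _) (norm_nonneg _)
    · refine Tendsto.mul_const _ ?_
      have hc : Continuous (fun ε : ℝ => (th0 ‖ε • x‖ : ℂ)) := by fun_prop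
      simpa [Function.comp_def] using (hc.tendsto 0).comp hηlim
  have l2 : Tendsto (fun m => ∫ x, (th0 ‖η m • x‖ : ℂ) * ((q x : ℂ) * fracLap φ x)) atTop
      (𝓝 0) :=
    squeeze_zero_norm (fun m => key _ (hη m) (hη1 m)) (by simpa using hηlim.mul_const (∫ ζ, G ζ))
  have h6 := tendsto_nhds_unique l1 l2
  rw [integral_const_mul] at h6
  have h7 : (th0 0 : ℂ) ≠ 0 := by exact_mod_cast (th0_pos (s := 0) (by simp)).ne'
  exact (mul_eq_zero.1 h6).resolve_left h7

theorem moment_poly {k : ℕ} (φ : 𝓢(E (k + 1), ℂ)) (p : MvPolynomial (Fin (k + 1)) ℝ)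
    (hp : p.totalDegree ≤ k) : ∫ x, (pev p x : ℂ) * fracLap φ x = 0 := by
  have hdeg : ∀ d ∈ p.support, (MvPolynomial.monomial d (p.coeff d)).totalDegree ≤ k :=
    fun d hd => (MvPolynomial.totalDegree_monomial_le _ _).trans
      ((MvPolynomial.le_totalDegree hd).trans hp)
  have e : ∀ x, (pev p x : ℂ) * fracLap φ x =
      ∑ d ∈ p.support, (pev (MvPolynomial.monomial d (p.coeff d)) x : ℂ) * fracLap φ x := by
    intro x
    rw [← Finset.sum_mul, ← Complex.ofReal_sum]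
    congr 2
    unfold pev
    rw [← map_sum, ← p.as_sum]
  simp_rw [e]
  rw [integral_finset_sum]
  · refine Finset.sum_eq_zero fun d hd => ?_
    obtain ⟨C, -, hC⟩ := pev_growth _ k (hdeg d hd)
    have e2 : pev (MvPolynomial.monomial d (p.coeff d)) =
        fun x : E (k + 1) => p.coeff d * ∏ i, x i ^ d i := by
      funext x
      simp [pev, MvPolynomial.eval_monomial, Finsupp.prod_fintype]
    refine moment_hom (j := ∑ i, d i) ?_ φ ?_ ?_ hC
    · refine le_trans (le_of_eq ?_) ((MvPolynomial.le_totalDegree hd).trans hp)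
      rw [Finsupp.sum_fintype]
      simp
    · rw [e2]
      refine contDiff_const.mul (contDiff_prod fun i _ => ContDiff.pow ?_ _)
      exact (EuclideanSpace.proj i : E (k + 1) →L[ℝ] ℝ).contDiff
    · intro ε x
      simp only [e2, PiLp.smul_apply, smul_eq_mul, mul_pow, Finset.prod_mul_distrib,
        Finset.prod_pow_eq_pow_sum]
      ring
  · intro d hd
    obtain ⟨C, -, hC⟩ := pev_growth _ k (hdeg d hd)
    exact int_mul_fracLap φ (pev_continuous _).aestronglyMeasurable hC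

end Pool.Agent.Lib.MP_d59d86_an
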