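import Pool.Agent.Lib.MP_d59d86_an.Four3

/-! The logarithm is the fundamental solution of `(-Δ)^{n/2}`. -/

namespace Pool.Agent.Lib.MP_d59d86_an

open MeasureTheory Filter Topology FourierTransform SchwartzMap Set ContDiff

variable {n : ℕ}

/-- Truncated power singularity. -/
noncomputable def kb (c : ℝ) (z : E n) : ℝ :=
  (Metric.ball (0 : E n) 1).indicator (fun z => ‖z‖ ^ (-c)) z

theorem kb_nonneg (c : ℝ) (z : E n) : 0 ≤ kb c z :=
  indicator_nonneg (fun z _ => by positivity) z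

theorem kb_of_lt (c : ℝ) {z : E n} (hz : ‖z‖ < 1) : kb c z = ‖z‖ ^ (-c) :=
  indicator_of_mem (by simpa using hz) _

theorem kb_meas (c : ℝ) : Measurable (kb c : E n → ℝ) :=
  Measurable.indicator (by fun_prop) measurableSet_ball

theorem kb_int (hn : 1 ≤ n) {c : ℝ} (hc : c < n) : Integrable (kb c : E n → ℝ) := by
  unfold kb
  rw [integrable_indicator_iff measurableSet_ball]
  refine integrableOn_ball_of_norm_le_rpow (C := 1) (α := c) (by simpa using hn)
    (by simpa using hc) (Eventually.of_forall fun x => ?_)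
    (Measurable.aestronglyMeasurable (by fun_prop))
  rw [Real.norm_of_nonneg (by positivity), one_mul]

theorem abs_log_le (z : E n) : |Real.log ‖z‖| ≤ ‖z‖ + kb 1 z := by
  have h0 := norm_nonneg z
  have h1 := kb_nonneg 1 z
  rcases le_or_gt 1 ‖z‖ with h | h
  · rw [abs_of_nonneg (Real.log_nonneg h)]
    linarith [Real.log_le_self h0]
  · rw [abs_of_nonpos (Real.log_nonpos h0 h.le), kb_of_lt 1 h, Real.rpow_neg_one, ← Real.log_inv]
    linarith [Real.log_le_self (inv_nonneg.2 h0)]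

theorem log_dom {k : ℕ} (hk : 1 ≤ k) (φ : 𝓢(E (k + 1), ℂ)) : ∃ B, 0 ≤ B ∧ ∀ x y,
    |Real.log ‖x - y‖| * ‖fracLap φ x‖ ≤
      (1 + ‖y‖) * ((1 + ‖x‖) ^ k * ‖fracLap φ x‖) + B * kb 1 (x - y) := by
  obtain ⟨B, hB⟩ := fracLap_bdd φ
  refine ⟨B, (norm_nonneg _).trans (hB 0), fun x y => ?_⟩
  have h1 : 1 + ‖x‖ ≤ (1 + ‖x‖) ^ k := le_self_pow₀ (by linarith [norm_nonneg x]) (by omega)
  have h2 : ‖x - y‖ ≤ (1 + ‖y‖) * (1 + ‖x‖) ^ k := by
    have := norm_sub_le x y
    have h3 := mul_le_mul_of_nonneg_left h1 (show 0 ≤ 1 + ‖y‖ by positivity)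
    nlinarith [norm_nonneg x, norm_nonneg y]
  calc _ ≤ (‖x - y‖ + kb 1 (x - y)) * ‖fracLap φ x‖ :=
        mul_le_mul_of_nonneg_right (abs_log_le _) (norm_nonneg _)
    _ = ‖x - y‖ * ‖fracLap φ x‖ + ‖fracLap φ x‖ * kb 1 (x - y) := by ring
    _ ≤ ((1 + ‖y‖) * (1 + ‖x‖) ^ k) * ‖fracLap φ x‖ + B * kb 1 (x - y) := by
        gcongr
        · exact kb_nonneg _ _
        · exact hB x
    _ = _ := by ring

theorem log_int {k : ℕ} (hk : 1 ≤ k) (φ : 𝓢(E (k + 1), ℂ)) (y : E (k + 1)) :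
    Integrable (fun x => |Real.log ‖x - y‖| * ‖fracLap φ x‖) := by
  obtain ⟨B, -, hB⟩ := log_dom hk φ
  have h1 : Integrable (kb 1 : E (k + 1) → ℝ) := kb_int (by omega) (by
    have : (1 : ℝ) ≤ k := by exact_mod_cast hk
    push_cast; linarith)
  refine (((fracLap_weight φ).const_mul (1 + ‖y‖)).add ((h1.comp_sub_right y).const_mul B)).mono'
    (Measurable.aestronglyMeasurable ?_) (Eventually.of_forall fun x => ?_)
  · have := (fracLap_cont φ).measurable
    fun_prop
  · rw [Real.norm_of_nonneg (by positivity)]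
    exact hB x y

/-- The Frullani kernel. -/
noncomputable def fr (a t : ℝ) : ℝ := t⁻¹ * (Real.exp (-t) - Real.exp (-(a * t)))

theorem exp_sub_le {u v : ℝ} (h : u ≤ v) :
    Real.exp (-u) - Real.exp (-v) ≤ (v - u) * Real.exp (-u) := by
  have h1 := Real.add_one_le_exp (u - v)
  have h2 : Real.exp (-v) = Real.exp (u - v) * Real.exp (-u) := by
    rw [← Real.exp_add]; ring_nf
  rw [h2]
  nlinarith [Real.exp_pos (-u)]

theorem fr_int {a : ℝ} (ha : 0 < a) : IntegrableOn (fr a) (Ioi 0) := by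
  have hm : 0 < min 1 a := lt_min one_pos ha
  refine ((exp_neg_integrableOn_Ioi 0 hm).const_mul |a - 1|).mono'
    (Measurable.aestronglyMeasurable (by unfold fr; fun_prop)) ?_
  filter_upwards [ae_restrict_mem measurableSet_Ioi] with t ht
  have ht' : 0 < t := ht
  unfold fr
  rw [norm_mul, Real.norm_of_nonneg (by positivity), inv_mul_le_iff₀ ht', Real.norm_eq_abs]
  rcases le_total 1 a with h | h
  · have h1 : t ≤ a * t := by nlinarith
    have h2 := exp_sub_le h1
    rw [min_eq_left h, abs_of_nonneg (sub_nonneg.2 (Real.exp_le_exp.2 (by linarith))),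
      abs_of_nonneg (sub_nonneg.2 h)]
    refine h2.trans (le_of_eq ?_)
    ring_nf
  · have h1 : a * t ≤ t := by nlinarith
    have h2 := exp_sub_le h1
    rw [min_eq_right h, abs_of_nonpos (sub_nonpos.2 (Real.exp_le_exp.2 (by linarith))),
      abs_of_nonpos (sub_nonpos.2 h), neg_sub]
    refine h2.trans (le_of_eq ?_)
    ring_nf

theorem fr_integral {a : ℝ} (ha : 0 < a) : ∫ t in Ioi (0 : ℝ), fr a t = Real.log a := by
  have hc : Continuous (fun x : ℝ => Real.exp (-x)) := by fun_prop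
  have h := Frullani.integral_Ioi_eq (f := fun x : ℝ => Real.exp (-x)) (a := 1) (b := a) (L := 1)
    (R := 0) (hc.locallyIntegrable.locallyIntegrableOn _) one_pos ha
    (by simpa using (hc.tendsto 0).mono_left nhdsWithin_le_nhds)
    Real.tendsto_exp_neg_atTop_nhds_zero (by simp only [one_mul, smul_eq_mul]; exact fr_int ha)
  simpa [fr] using h

theorem fr_abs_integral {a : ℝ} (ha : 0 < a) : ∫ t in Ioi (0 : ℝ), |fr a t| = |Real.log a| := by
  rcases le_total 1 a with h | h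
  · rw [abs_of_nonneg (Real.log_nonneg h), ← fr_integral ha]
    refine setIntegral_congr_fun measurableSet_Ioi fun t ht => ?_
    have ht' : 0 < t := ht
    exact abs_of_nonneg (mul_nonneg (by positivity)
      (sub_nonneg.2 (Real.exp_le_exp.2 (by nlinarith))))
  · rw [abs_of_nonpos (Real.log_nonpos ha.le h), ← fr_integral ha, ← integral_neg]
    refine setIntegral_congr_fun measurableSet_Ioi fun t ht => ?_
    have ht' : 0 < t := ht
    exact abs_of_nonpos (mul_nonpos_of_nonneg_of_nonpos (by positivity)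
      (sub_nonpos.2 (Real.exp_le_exp.2 (by nlinarith))))

/-- The Fourier side of the Gaussian kernel. -/
noncomputable def gk (n : ℕ) (r t : ℝ) : ℝ :=
  t⁻¹ * ((Real.pi / t) ^ ((n : ℝ) / 2) * Real.exp (-Real.pi ^ 2 * r ^ 2 / t))

theorem gk_subst (n : ℕ) (r : ℝ) {x : ℝ} (hx : 0 < x) :
    (|(-1 : ℝ)| * x ^ ((-1 : ℝ) - 1)) • gk n r (x ^ (-1 : ℝ)) =
      Real.pi ^ ((n : ℝ) / 2) * (x ^ ((n : ℝ) / 2 - 1) * Real.exp (-(Real.pi ^ 2 * r ^ 2 * x))) := by
  unfold gk
  rw [Real.rpow_neg_one, inv_inv, div_inv_eq_mul, div_inv_eq_mul,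
    Real.mul_rpow Real.pi_pos.le hx.le, Real.rpow_sub hx, Real.rpow_sub hx, Real.rpow_neg_one,
    Real.rpow_one, smul_eq_mul]
  simp only [abs_neg, abs_one, neg_mul]
  field_simp

theorem gk_int (hn : 1 ≤ n) {r : ℝ} (hr : 0 < r) : IntegrableOn (gk n r) (Ioi 0) := by
  rw [← integrableOn_Ioi_comp_rpow_iff (gk n r) (p := -1) (by norm_num)]
  have hn' : (1 : ℝ) ≤ n := by exact_mod_cast hn
  have h := (integrableOn_rpow_mul_exp_neg_mul_rpow (s := (n : ℝ) / 2 - 1) (p := 1)
    (b := Real.pi ^ 2 * r ^ 2) (by linarith) one_pos (by positivity)).const_mul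
    (Real.pi ^ ((n : ℝ) / 2))
  refine IntegrableOn.congr_fun h (fun x hx => ?_) measurableSet_Ioi
  rw [gk_subst n r hx, Real.rpow_one, neg_mul]

theorem gk_integral (hn : 1 ≤ n) {r : ℝ} (hr : 0 < r) :
    (∫ t in Ioi (0 : ℝ), gk n r t) * (2 * Real.pi * r) ^ n =
      2 ^ n * Real.pi ^ ((n : ℝ) / 2) * Real.Gamma (n / 2) := by
  have hn' : (1 : ℝ) ≤ n := by exact_mod_cast hn
  rw [← integral_comp_rpow_Ioi (gk n r) (p := -1) (by norm_num),
    setIntegral_congr_fun measurableSet_Ioi (fun x hx => gk_subst n r hx), integral_const_mul,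
    Real.integral_rpow_mul_exp_neg_mul_Ioi (by linarith) (by positivity)]
  have h1 : (1 / (Real.pi ^ 2 * r ^ 2)) ^ ((n : ℝ) / 2) = ((Real.pi * r) ^ n)⁻¹ := by
    have := Real.pi_pos
    rw [one_div, Real.inv_rpow (by positivity), ← mul_pow, ← Real.rpow_natCast,
      ← Real.rpow_mul (by positivity), ← Real.rpow_natCast]
    congr 2
    push_cast; ring
  rw [h1]
  have := Real.pi_pos
  field_simp
  ring

theorem gauss_int {t : ℝ} (ht : 0 < t) (y : E n) :
    Integrable (fun x : E n => ((Real.exp (-(‖x - y‖ ^ 2 * t)) : ℝ) : ℂ)) := by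
  have h := (GaussianFourier.integrable_cexp_neg_mul_sq_norm_add (V := E n) (b := t)
    (by simpa using ht) 0 0).comp_sub_right y
  refine h.congr (Eventually.of_forall fun x => ?_)
  simp only
  push_cast
  congr 1; ring

theorem finv_gauss {t : ℝ} (ht : 0 < t) (y ξ : E n) :
    𝓕⁻ (fun x : E n => ((Real.exp (-(‖x - y‖ ^ 2 * t)) : ℝ) : ℂ)) ξ =
      ch ξ y * ((t * gk n ‖ξ‖ t : ℝ) : ℂ) := by
  have h1 := fourier_gaussian_innerProductSpace (V := E n) (b := t) (by simpa using ht) (-ξ)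
  rw [four_eq, neg_neg, norm_neg, finrank_euclideanSpace_fin] at h1
  have h2 : ((t * gk n ‖ξ‖ t : ℝ) : ℂ) =
      ((Real.pi : ℂ) / t) ^ ((n : ℂ) / 2) * Complex.exp (-(Real.pi : ℂ) ^ 2 * (‖ξ‖ : ℂ) ^ 2 / t) := by
    unfold gk
    rw [← mul_assoc, mul_inv_cancel₀ ht.ne', one_mul, Complex.ofReal_mul,
      Complex.ofReal_cpow (div_pos Real.pi_pos ht).le]
    push_cast
    rfl
  rw [h2, ← h1, finv_eq, ← integral_const_mul,
    ← integral_add_right_eq_self (μ := (volume : Measure (E n))) _ y]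
  refine integral_congr_ae (Eventually.of_forall fun x => ?_)
  simp only [add_sub_cancel_right]
  rw [ch_comm (x + y), ch_add, ch_comm ξ x]
  push_cast
  rw [show -((‖x‖ : ℂ) ^ 2 * t) = -(t : ℂ) * (‖x‖ : ℂ) ^ 2 by ring]
  ring

/-- The constant `2^{n-1} π^{n/2} Γ(n/2)`. -/
noncomputable def gam (n : ℕ) : ℝ := 2 ^ n * Real.pi ^ ((n : ℝ) / 2) * Real.Gamma (n / 2) / 2

theorem log_identity {k : ℕ} (hk : 1 ≤ k) (φ : 𝓢(E (k + 1), ℂ)) (y : E (k + 1)) :
    ∫ x, (Real.log ‖x - y‖ : ℂ) * fracLap φ x = -(gam (k + 1) : ℂ) * φ y := by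
  set ψ := fracLap φ with hψ
  set F : E (k + 1) → ℂ :=
    fun ξ => (((2 * Real.pi * ‖ξ‖) ^ (k + 1) : ℝ) : ℂ) * 𝓕 (φ : E (k + 1) → ℂ) ξ with hF
  have hFi : Integrable F := symb_int φ (k + 1)
  have hψc : Continuous ψ := fracLap_cont φ
  have hψi : Integrable ψ := by
    simpa using int_mul_fracLap φ (q := fun _ => 1) aestronglyMeasurable_const (C := 1)
      (fun x => by simpa using one_le_pow₀ (by linarith [norm_nonneg x]))
  have hψ0 : ∫ x, ψ x = 0 := by
    simpa [pev] using moment_poly φ 1 (by simp)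
  have hae : ∀ z : E (k + 1), ∀ᵐ x : E (k + 1), x ≠ z := fun z => by
    simp [ae_iff]
  have i1 : Integrable (Function.uncurry fun (x : E (k + 1)) (t : ℝ) =>
      (fr (‖x - y‖ ^ 2) t : ℂ) * ψ x) (volume.prod (volume.restrict (Ioi 0))) := by
    have hm : Measurable (Function.uncurry fun (x : E (k + 1)) (t : ℝ) =>
        (fr (‖x - y‖ ^ 2) t : ℂ) * ψ x) := by
      have := hψc.measurable
      unfold Function.uncurry fr
      fun_prop
    rw [integrable_prod_iff hm.aestronglyMeasurable]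
    constructor
    · filter_upwards [hae y] with x hx
      have h1 : 0 < ‖x - y‖ ^ 2 := pow_pos (norm_pos_iff.2 (sub_ne_zero.2 hx)) 2
      have h2 : Integrable (fun t => (fr (‖x - y‖ ^ 2) t : ℂ)) (volume.restrict (Ioi 0)) :=
        (fr_int h1).ofReal
      simp only [Function.uncurry]
      exact h2.mul_const _
    · refine ((log_int hk φ y).const_mul 2).congr ?_
      filter_upwards [hae y] with x hx
      have h1 : 0 < ‖x - y‖ ^ 2 := pow_pos (norm_pos_iff.2 (sub_ne_zero.2 hx)) 2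
      simp only [Function.uncurry, norm_mul, Complex.norm_real, Real.norm_eq_abs]
      rw [integral_mul_const, fr_abs_integral h1, Real.log_pow, abs_mul]
      simp [hψ, mul_assoc]
  have i2 : Integrable (Function.uncurry fun (ξ : E (k + 1)) (t : ℝ) =>
      (gk (k + 1) ‖ξ‖ t : ℂ) * (ch ξ y * F ξ)) (volume.prod (volume.restrict (Ioi 0))) := by
    have hm : Measurable (Function.uncurry fun (ξ : E (k + 1)) (t : ℝ) =>
        (gk (k + 1) ‖ξ‖ t : ℂ) * (ch ξ y * F ξ)) := by
      have h2 : Measurable (𝓕 (φ : E (k + 1) → ℂ)) := (𝓕 φ).continuous.measurable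
      have hch : Measurable (fun ξ : E (k + 1) => ch ξ y) :=
        (ch_cont.comp (f := fun ξ : E (k + 1) => (ξ, y)) (by fun_prop)).measurable
      unfold Function.uncurry gk
      fun_prop
    rw [integrable_prod_iff hm.aestronglyMeasurable]
    constructor
    · filter_upwards [hae 0] with ξ hξ
      have h2 : Integrable (fun t => (gk (k + 1) ‖ξ‖ t : ℂ)) (volume.restrict (Ioi 0)) :=
        (gk_int (by omega) (norm_pos_iff.2 hξ)).ofReal
      simp only [Function.uncurry]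
      exact h2.mul_const _
    · refine (((𝓕 φ).integrable.norm).const_mul (2 * gam (k + 1))).congr ?_
      filter_upwards [hae 0] with ξ hξ
      simp only [Function.uncurry, norm_mul, Complex.norm_real, ch_norm, one_mul, hF]
      have h3 : ∫ t in Ioi (0 : ℝ), ‖gk (k + 1) ‖ξ‖ t‖ = ∫ t in Ioi (0 : ℝ), gk (k + 1) ‖ξ‖ t := by
        refine setIntegral_congr_fun measurableSet_Ioi fun t ht => ?_
        have ht' : 0 < t := ht
        have := Real.pi_pos
        exact Real.norm_of_nonneg (by unfold gk; positivity)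
      rw [integral_mul_const, h3, Real.norm_of_nonneg (by positivity), ← mul_assoc,
        gk_integral (by omega) (norm_pos_iff.2 hξ), fourier_coe, gam]
      ring
  have e1 : 2 * ∫ x, (Real.log ‖x - y‖ : ℂ) * ψ x =
      ∫ x, ∫ t in Ioi (0 : ℝ), (fr (‖x - y‖ ^ 2) t : ℂ) * ψ x := by
    rw [← integral_const_mul]
    refine integral_congr_ae ?_
    filter_upwards [hae y] with x hx
    have h1 : 0 < ‖x - y‖ ^ 2 := pow_pos (norm_pos_iff.2 (sub_ne_zero.2 hx)) 2
    rw [integral_mul_const, integral_complex_ofReal, fr_integral h1, Real.log_pow]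
    push_cast; ring
  have e2 : ∀ t ∈ Ioi (0 : ℝ), ∫ x, (fr (‖x - y‖ ^ 2) t : ℂ) * ψ x =
      -∫ ξ, (gk (k + 1) ‖ξ‖ t : ℂ) * (ch ξ y * F ξ) := by
    intro t ht
    have ht' : 0 < t := ht
    have htc : (t : ℂ) ≠ 0 := by exact_mod_cast ht'.ne'
    have h1 := mult hFi (gauss_int ht' y)
    obtain ⟨B, hB⟩ := fracLap_bdd φ
    have h2 : Integrable (fun x => ((Real.exp (-(‖x - y‖ ^ 2 * t)) : ℝ) : ℂ) * ψ x) :=
      (gauss_int ht' y).mul_bdd hψc.aestronglyMeasurable (Eventually.of_forall hB)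
    have h3 : ∫ x, (fr (‖x - y‖ ^ 2) t : ℂ) * ψ x = (t : ℂ)⁻¹ * ∫ x,
        ((Real.exp (-t) : ℂ) * ψ x - ((Real.exp (-(‖x - y‖ ^ 2 * t)) : ℝ) : ℂ) * ψ x) := by
      rw [← integral_const_mul]
      refine integral_congr_ae (Eventually.of_forall fun x => ?_)
      simp only [fr, Complex.ofReal_mul, Complex.ofReal_sub, Complex.ofReal_inv]
      ring
    rw [h3, integral_sub (hψi.const_mul _) h2, integral_const_mul, hψ0, mul_zero, zero_sub]
    change _ * -∫ x, _ * 𝓕⁻ F x = _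
    rw [h1, mul_neg, ← integral_const_mul]
    congr 1
    refine integral_congr_ae (Eventually.of_forall fun ξ => ?_)
    simp only [finv_gauss ht' y ξ, Complex.ofReal_mul]
    field_simp
  have e3 : ∫ ξ, ∫ t in Ioi (0 : ℝ), (gk (k + 1) ‖ξ‖ t : ℂ) * (ch ξ y * F ξ) =
      2 * (gam (k + 1) : ℂ) * φ y := by
    have h1 : φ y = 𝓕⁻ (𝓕 (φ : E (k + 1) → ℂ)) y := by
      rw [← fourier_coe, ← fourierInv_coe, fourierInv_fourier_eq]
    rw [h1, finv_eq, ← integral_const_mul]
    refine integral_congr_ae ?_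
    filter_upwards [hae 0] with ξ hξ
    have h2 := gk_integral (n := k + 1) (by omega) (norm_pos_iff.2 hξ)
    have h3 : 2 * (gam (k + 1) : ℂ) =
        (((∫ t in Ioi (0 : ℝ), gk (k + 1) ‖ξ‖ t) * (2 * Real.pi * ‖ξ‖) ^ (k + 1) : ℝ) : ℂ) := by
      rw [h2, gam]; push_cast; ring
    rw [integral_mul_const, integral_complex_ofReal, h3, hF, Complex.ofReal_mul]
    ring
  rw [integral_integral_swap i1, setIntegral_congr_fun measurableSet_Ioi e2, integral_neg,
    ← integral_integral_swap i2, e3] at e1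
  linear_combination e1 / 2

end Pool.Agent.Lib.MP_d59d86_an
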