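import Pool.Agent.Lib.MP_d59d86_an.Four4

/-! The even-dimensional operator and the constant `Λ₁`. -/

namespace Pool.Agent.Lib.MP_d59d86_an

open MeasureTheory Filter Topology FourierTransform SchwartzMap Set ContDiff Laplacian

variable {n : ℕ}

theorem polyLap_schwartz (Φ : 𝓢(E n, ℂ)) (φ : E n → ℝ) (hΦ : ∀ x, Φ x = φ x) (k : ℕ) :
    ∃ S : 𝓢(E n, ℂ), (∀ x, S x = polyLap k φ x) ∧
      ∀ ξ, 𝓕 S ξ = (((2 * Real.pi * ‖ξ‖) ^ (2 * k) : ℝ) : ℂ) * 𝓕 Φ ξ := by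
  induction k with
  | zero => exact ⟨Φ, hΦ, fun ξ => by simp⟩
  | succ k ih =>
    obtain ⟨S, hS, hF⟩ := ih
    refine ⟨-Δ S, fun x => ?_, fun ξ => ?_⟩
    · have h1 : (S : E n → ℂ) = Complex.ofRealCLM ∘ polyLap k φ := funext hS
      have h2 : polyLap k φ = Complex.reCLM ∘ S := by
        funext y; simp [hS]
      have h3 : ContDiffAt ℝ 2 (polyLap k φ) x := by
        rw [h2]; exact (Complex.reCLM.contDiff.comp (S.smooth 2)).contDiffAt
      rw [neg_apply, laplacian_apply, h1, h3.laplacian_CLM_comp_left]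
      simp [polyLap, Function.iterate_succ_apply']
    · rw [laplacian_eq_fourierMultiplierCLM, fourierMultiplierCLM_apply, ← neg_smul, neg_neg]
      have h1 : 𝓕 ((2 * Real.pi) ^ 2 • (𝓕⁻ (smulLeftCLM ℂ (fun x : E n => ‖x‖ ^ 2) (𝓕 S)))) =
          (2 * Real.pi) ^ 2 • (smulLeftCLM ℂ (fun x : E n => ‖x‖ ^ 2) (𝓕 S)) := by
        rw [FourierTransform.fourier_smul, fourier_fourierInv_eq]
      rw [h1, smul_apply, smulLeftCLM_apply_apply (by fun_prop), hF]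
      simp only [Complex.real_smul]
      push_cast
      ring

theorem fracLap_even (hn : Even n) (Φ : 𝓢(E n, ℂ)) (φ : E n → ℝ) (hΦ : ∀ x, Φ x = φ x)
    (x : E n) : fracLap Φ x = polyLap (n / 2) φ x := by
  obtain ⟨S, hS, hF⟩ := polyLap_schwartz Φ φ hΦ (n / 2)
  rw [Nat.two_mul_div_two_of_even hn] at hF
  have h1 : (fun ξ : E n => (((2 * Real.pi * ‖ξ‖) ^ n : ℝ) : ℂ) * 𝓕 (Φ : E n → ℂ) ξ) =
      (𝓕 S : 𝓢(E n, ℂ)) := by
    funext ξ; rw [hF, fourier_coe]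
  rw [fracLap, h1, ← fourierInv_coe, fourierInv_fourier_eq, hS]

theorem lambdaOne_eq (k : ℕ) : lambdaOne (k + 1) = 2 * gam (k + 1) := by
  have hpi := Real.pi_pos
  have h1 : sphereVol (k + 1) =
      ((k : ℝ) + 2) * (√Real.pi ^ (k + 2) / Real.Gamma (((k : ℝ) + 2) / 2 + 1)) := by
    have h0 : 0 < Real.Gamma (((k + 1 + 1 : ℕ) : ℝ) / 2 + 1) := Real.Gamma_pos_of_pos (by positivity)
    rw [sphereVol, Measure.toSphere_real_apply_univ, finrank_euclideanSpace_fin, measureReal_def,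
      EuclideanSpace.volume_ball, Fintype.card_fin, ENNReal.ofReal_one, one_pow, one_mul,
      ENNReal.toReal_ofReal (by positivity)]
    push_cast
    rw [show (k : ℝ) + 1 + 1 = k + 2 by ring]
  have h2 := Real.Gamma_mul_Gamma_add_half (((k : ℝ) + 1) / 2)
  have h3 : Real.Gamma (2 * (((k : ℝ) + 1) / 2)) = k.factorial := by
    rw [← Real.Gamma_nat_eq_factorial]; congr 1; ring
  have h4 : (2 : ℝ) ^ (1 - 2 * (((k : ℝ) + 1) / 2)) = (2 ^ k)⁻¹ := by
    rw [← Real.rpow_natCast, ← Real.rpow_neg (by norm_num)]; congr 1; ring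
  have h5 : Real.pi ^ (((k + 1 : ℕ) : ℝ) / 2) = √Real.pi ^ (k + 1) := by
    rw [Real.sqrt_eq_rpow, ← Real.rpow_natCast, ← Real.rpow_mul hpi.le]; congr 1; ring
  have h6 : Real.Gamma (((k : ℝ) + 2) / 2 + 1) =
      ((k : ℝ) + 2) / 2 * Real.Gamma (((k : ℝ) + 1) / 2 + 1 / 2) := by
    rw [Real.Gamma_add_one (by positivity)]; congr 2; ring
  have h7 : 0 < Real.Gamma (((k : ℝ) + 1) / 2 + 1 / 2) := Real.Gamma_pos_of_pos (by positivity)
  rw [h3, h4, ← eq_div_iff h7.ne'] at h2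
  rw [lambdaOne, h1, gam, h5, h6]
  push_cast
  rw [h2]
  field_simp
  ring

theorem gam_pos (k : ℕ) : 0 < gam (k + 1) := by
  have := Real.pi_pos
  have h0 : 0 < Real.Gamma (((k + 1 : ℕ) : ℝ) / 2) := Real.Gamma_pos_of_pos (by positivity)
  unfold gam
  positivity

end Pool.Agent.Lib.MP_d59d86_an
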