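import Pool.Agent.Lib.MP_d59d86_an.Weight

/-! Logarithmic potentials: asymptotics, the distributional equation, and the main theorem. -/

namespace Pool.Agent.Lib.MP_d59d86_an

open MeasureTheory Filter Topology Set SchwartzMap ContDiff

variable {n : ℕ} {a : ℝ}

theorem log_diff_le {x : E n} (hx : 1 ≤ ‖x‖) (y : E n) :
    |Real.log ‖x - y‖ - Real.log ‖x‖| ≤ (1 + ‖y‖) ^ 2 / ‖x‖ + kb 1 (x - y) := by
  have hy := norm_nonneg y
  have hk := kb_nonneg 1 (x - y)
  have h1 : ‖x‖ ≤ ‖x - y‖ + ‖y‖ := by simpa using norm_add_le (x - y) y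
  have h2 := norm_sub_le x y
  have hx0 : 0 < ‖x‖ := by linarith
  rcases le_or_gt 1 ‖x - y‖ with h | h
  · have hr : 0 < ‖x - y‖ := by linarith
    have h3 := Real.log_le_sub_one_of_pos (div_pos hr hx0)
    have h4 := Real.log_le_sub_one_of_pos (div_pos hx0 hr)
    rw [Real.log_div hr.ne' hx0.ne'] at h3
    rw [Real.log_div hx0.ne' hr.ne'] at h4
    have h5 : ‖x - y‖ / ‖x‖ - 1 ≤ (1 + ‖y‖) ^ 2 / ‖x‖ := by
      rw [div_sub_one hx0.ne']
      exact div_le_div_of_nonneg_right (by nlinarith) hx0.le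
    have h6 : ‖x‖ / ‖x - y‖ - 1 ≤ (1 + ‖y‖) ^ 2 / ‖x‖ := by
      rw [div_sub_one hr.ne', div_le_div_iff₀ hr hx0]
      have h7 : ‖x‖ ≤ ‖x - y‖ * (1 + ‖y‖) := by nlinarith
      calc (‖x‖ - ‖x - y‖) * ‖x‖ ≤ (1 + ‖y‖) * (‖x - y‖ * (1 + ‖y‖)) :=
            mul_le_mul (by linarith) h7 hx0.le (by positivity)
        _ = _ := by ring
    rw [abs_le]; constructor <;> linarith
  · have h3 : |Real.log ‖x - y‖| ≤ kb 1 (x - y) := by
      rw [abs_of_nonpos (Real.log_nonpos (norm_nonneg _) h.le), kb_of_lt 1 h, Real.rpow_neg_one,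
        ← Real.log_inv]
      exact Real.log_le_self (inv_nonneg.2 (norm_nonneg _))
    have h4 : |Real.log ‖x‖| ≤ (1 + ‖y‖) ^ 2 / ‖x‖ := by
      rw [abs_of_nonneg (Real.log_nonneg hx), le_div_iff₀ hx0]
      have h5 := Real.log_le_self hx0.le
      have h6 : ‖x‖ * ‖x‖ ≤ (1 + ‖y‖) ^ 2 := by nlinarith
      nlinarith
    linarith [abs_sub (Real.log ‖x - y‖) (Real.log ‖x‖)]

theorem pot_asymp {ρ U : E n → ℝ} (hn : 2 ≤ n) (ha : a < n) (hρ : Wt a ρ) (h1 : ∫ y, ρ y = 1)
    (hU : ∀ x, U x = ∫ y, Real.log ‖x - y‖ * ρ y) :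
    Tendsto (fun x => U x - Real.log ‖x‖) (cocompact (E n)) (𝓝 0) := by
  obtain ⟨C, hC0, hC⟩ := hρ.decay 1
  have i1 : Integrable (kb 1 : E n → ℝ) := kb_int (by omega) (by exact_mod_cast hn)
  have i2 := hρ.int (by omega) ha 2
  have i0 := hρ.int0 (by omega) ha
  have hnorm : Tendsto (fun x : E n => ‖x‖) (cocompact (E n)) atTop :=
    tendsto_norm_cocompact_atTop (E := E n)
  have hlim := hnorm.const_div_atTop ((∫ y, ρ y * (1 + ‖y‖) ^ 2) + C * ∫ y : E n, kb 1 y)
  refine squeeze_zero_norm' ?_ hlim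
  filter_upwards [hnorm.eventually_ge_atTop 2] with x hx
  have hx0 : 0 < ‖x‖ := by linarith
  have i3 : Integrable (fun y => (ρ y * (1 + ‖y‖) ^ 2 + C * kb 1 (x - y)) / ‖x‖) :=
    (i2.add ((i1.comp_sub_left x).const_mul C)).div_const _
  have hle : ∀ y, ‖(Real.log ‖x - y‖ - Real.log ‖x‖) * ρ y‖ ≤
      (ρ y * (1 + ‖y‖) ^ 2 + C * kb 1 (x - y)) / ‖x‖ := by
    intro y
    have h0 := hρ.nonneg y
    have h2 : kb 1 (x - y) * ρ y ≤ C * kb 1 (x - y) / ‖x‖ := by
      by_cases h : ‖x - y‖ < 1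
      · have h3 : ‖x‖ ≤ ‖x - y‖ + ‖y‖ := by simpa using norm_add_le (x - y) y
        have h4 : kb a y = 0 := indicator_of_notMem (by simp; linarith) _
        have h5 := hC y
        rw [h4, pow_one, add_zero, mul_one] at h5
        rw [le_div_iff₀ hx0, mul_assoc, mul_comm C]
        exact mul_le_mul_of_nonneg_left (by nlinarith) (kb_nonneg _ _)
      · have h4 : kb 1 (x - y) = 0 := indicator_of_notMem (by simpa using h) _
        simp [h4]
    rw [norm_mul, Real.norm_of_nonneg h0, Real.norm_eq_abs]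
    refine (mul_le_mul_of_nonneg_right (log_diff_le (by linarith) y) h0).trans ?_
    rw [add_mul, add_div]
    refine add_le_add (le_of_eq (by ring)) h2
  have i4 : Integrable (fun y => (Real.log ‖x - y‖ - Real.log ‖x‖) * ρ y) :=
    i3.mono' (Measurable.aestronglyMeasurable (Measurable.mul (by fun_prop) hρ.meas))
      (Eventually.of_forall hle)
  have e : U x - Real.log ‖x‖ = ∫ y, (Real.log ‖x - y‖ - Real.log ‖x‖) * ρ y := by
    have e1 : U x = ∫ y, ((Real.log ‖x - y‖ - Real.log ‖x‖) * ρ y + Real.log ‖x‖ * ρ y) := by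
      rw [hU]; exact integral_congr_ae (Eventually.of_forall fun y => by ring)
    rw [e1, integral_add i4 (i0.const_mul _), integral_const_mul, h1]
    ring
  rw [e]
  refine (norm_integral_le_of_norm_le i3 (Eventually.of_forall hle)).trans (le_of_eq ?_)
  rw [integral_div, integral_add i2 ((i1.comp_sub_left x).const_mul C), integral_const_mul,
    integral_sub_left_eq_self (kb 1) volume x]

theorem pot_pair {k : ℕ} (hk : 1 ≤ k) {ρ U : E (k + 1) → ℝ} (ha : a < (k + 1 : ℕ)) (hρ : Wt a ρ)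
    (hU : ∀ x, U x = ∫ y, Real.log ‖x - y‖ * ρ y) (φ : 𝓢(E (k + 1), ℂ)) :
    ∫ x, (U x : ℂ) * fracLap φ x = -(gam (k + 1) : ℂ) * ∫ y, (ρ y : ℂ) * φ y := by
  obtain ⟨B, hB0, hB⟩ := log_dom hk φ
  have i1 : Integrable (kb 1 : E (k + 1) → ℝ) := kb_int (by omega) (by exact_mod_cast by omega)
  have i2 := hρ.int (by omega) ha 1
  have i0 := hρ.int0 (by omega) ha
  have i3 := (fracLap_weight φ).mul_prod i2
  have i4 := (i0.convolution_integrand (ContinuousLinearMap.mul ℝ ℝ) i1).const_mul B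
  have hi : Integrable (Function.uncurry fun x y : E (k + 1) =>
      ((Real.log ‖x - y‖ * ρ y : ℝ) : ℂ) * fracLap φ x) (volume.prod volume) := by
    refine (i3.add i4).mono' (Measurable.aestronglyMeasurable ?_)
      (Eventually.of_forall fun p => ?_)
    · have := (fracLap_cont φ).measurable
      have := hρ.meas
      unfold Function.uncurry
      fun_prop
    · have h1 := mul_le_mul_of_nonneg_left (hB p.1 p.2) (hρ.nonneg p.2)
      simp only [Function.uncurry, norm_mul, Complex.norm_real, Real.norm_eq_abs, Pi.add_apply,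
        abs_of_nonneg (hρ.nonneg p.2), ContinuousLinearMap.mul_apply', pow_one]
      linarith
  have e1 : ∀ x, (U x : ℂ) * fracLap φ x =
      ∫ y, ((Real.log ‖x - y‖ * ρ y : ℝ) : ℂ) * fracLap φ x := fun x => by
    rw [integral_mul_const, integral_complex_ofReal, hU]
  simp_rw [e1]
  rw [integral_integral_swap hi, ← integral_const_mul]
  refine integral_congr_ae (Eventually.of_forall fun y => ?_)
  have e2 : ∫ x, ((Real.log ‖x - y‖ * ρ y : ℝ) : ℂ) * fracLap φ x =
      (ρ y : ℂ) * ∫ x, (Real.log ‖x - y‖ : ℂ) * fracLap φ x := by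
    rw [← integral_const_mul]
    refine integral_congr_ae (Eventually.of_forall fun x => ?_)
    simp only [Complex.ofReal_mul]; ring
  simp only
  rw [e2, log_identity hk φ y]
  ring

theorem isWeakSol_of {k : ℕ} (hk : 1 ≤ k) {α C : ℝ} {u : E (k + 1) → ℝ} (hu : Measurable u)
    (hC : ∀ x, |u x| ≤ C * (1 + ‖x‖) ^ k) (hfin : Integrable (rhs (k + 1) α u))
    (hid : ∀ φ : 𝓢(E (k + 1), ℂ),
      ∫ x, (u x : ℂ) * fracLap φ x = ∫ x, (rhs (k + 1) α u x : ℂ) * φ x) :
    IsWeakSol (k + 1) α u := by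
  have hC0 : 0 ≤ C := by simpa using (abs_nonneg _).trans (hC 0)
  refine ⟨?_, hfin, fun hn φ hφ hs => ?_, fun _ => ?_, fun _ φ =>
    ⟨int_mul_fracLap φ hu.aestronglyMeasurable hC, hid φ⟩⟩
  · have hc : Continuous (fun x : E (k + 1) => C * (1 + ‖x‖) ^ k) := by fun_prop
    refine hc.locallyIntegrable.mono hu.aestronglyMeasurable (Eventually.of_forall fun x => ?_)
    exact (hC x).trans (le_abs_self _)
  · let Φ : 𝓢(E (k + 1), ℂ) :=
      (hs.comp_left (g := Complex.ofReal) Complex.ofReal_zero).toSchwartzMap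
        (Complex.ofRealCLM.contDiff.comp hφ)
    have hΦ : ∀ x, Φ x = φ x := fun x => rfl
    have h1 := int_mul_fracLap Φ hu.aestronglyMeasurable hC
    have h2 := hid Φ
    simp only [fracLap_even hn Φ φ hΦ, hΦ, ← Complex.ofReal_mul] at h1 h2
    rw [integral_complex_ofReal, integral_complex_ofReal, Complex.ofReal_inj] at h2
    exact ⟨by simpa using h1.re, h2⟩
  · have h1 : Integrable (fun y : E (k + 1) => (1 + ‖y‖) ^ (-((k + 2 : ℕ) : ℝ))) :=
      integrable_one_add_norm (by simp)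
    refine (h1.const_mul (C * 2 ^ (2 * (k + 1)))).mono'
      (Measurable.aestronglyMeasurable (by fun_prop)) (Eventually.of_forall fun x => ?_)
    have h0 := norm_nonneg x
    rw [Real.norm_of_nonneg (by positivity), Real.rpow_neg (by positivity), Real.rpow_natCast,
      ← div_eq_mul_inv, div_le_div_iff₀ (by positivity) (by positivity)]
    have h2 : (1 + ‖x‖) ^ (2 * (k + 1)) ≤ 2 ^ (2 * (k + 1)) * (1 + ‖x‖ ^ (2 * (k + 1))) := by
      have h3 := add_pow_le (zero_le_one) h0 (2 * (k + 1))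
      rw [one_pow] at h3
      refine h3.trans (mul_le_mul_of_nonneg_right ?_ (by positivity))
      exact pow_le_pow_right₀ (by norm_num) (by omega)
    calc |u x| * (1 + ‖x‖) ^ (k + 2) ≤ (C * (1 + ‖x‖) ^ k) * (1 + ‖x‖) ^ (k + 2) := by
          gcongr; exact hC x
      _ = C * (1 + ‖x‖) ^ (2 * (k + 1)) := by ring
      _ ≤ C * (2 ^ (2 * (k + 1)) * (1 + ‖x‖ ^ (2 * (k + 1)))) := by gcongr
      _ = _ := by ring

theorem main {k : ℕ} (hk : 1 ≤ k) (α Λ : ℝ) (hα : -1 < α) (hΛ : 0 < Λ)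
    (hΛ1 : Λ < lambdaOne (k + 1) * min 1 (1 + α)) (p : MvPolynomial (Fin (k + 1)) ℝ)
    (hdeg : p.totalDegree ≤ k) (hp : Tendsto (pev p) (cocompact (E (k + 1))) atBot) :
    ∃ (u : E (k + 1) → ℝ) (C : ℝ), IsWeakSol (k + 1) α u ∧ ∫ x, rhs (k + 1) α u x = Λ ∧
      Tendsto (fun x => u x - pev p x + 2 * Λ / lambdaOne (k + 1) * Real.log ‖x‖)
        (cocompact (E (k + 1))) (𝓝 C) := by
  have hL : 0 < lambdaOne (k + 1) := by rw [lambdaOne_eq]; linarith [gam_pos k]
  set N : ℝ := ((k + 1 : ℕ) : ℝ) with hN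
  have hN0 : 0 < N := by positivity
  set lam := Λ / lambdaOne (k + 1) with hlam
  have hlam0 : 0 < lam := div_pos hΛ hL
  have hlam1 : lam < min 1 (1 + α) := by rw [hlam, div_lt_iff₀ hL]; linarith
  have hab : max 0 (-(N * α)) + N * lam < N := by
    rw [lt_min_iff] at hlam1
    rcases le_total 0 (-(N * α)) with h | h
    · rw [max_eq_right h]; nlinarith [hlam1.2]
    · rw [max_eq_left h]; nlinarith [hlam1.1]
  have ha : max 0 (-(N * α)) < N := by nlinarith
  obtain ⟨ρ, U, B, Z, hρ, h1, hUm, hU, hB, hZ, hfix⟩ :=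
    (wt_poly (by omega) α p hp).exists_rho (by omega) (le_max_left _ _)
      (fun y hy => mul_pos (Real.exp_pos _) (Real.rpow_pos_of_pos (norm_pos_iff.2 hy) _))
      (β := N * lam) (by positivity) hab
  set c := Real.log (Λ / Z) / N with hc
  have hrhs : ∀ x, rhs (k + 1) α (fun x => pev p x + c - 2 * lam * U x) x = Λ * ρ x := fun x => by
    rw [rhs, hfix, ← hN]
    have e : N * (pev p x + c - 2 * lam * U x) =
        N * pev p x + Real.log (Λ / Z) + -(2 * (N * lam)) * U x := by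
      rw [hc]; field_simp; ring
    rw [e, Real.exp_add, Real.exp_add, Real.exp_log (div_pos hΛ hZ)]
    ring
  have i0 := hρ.int0 (by omega) ha
  obtain ⟨C1, hC1, hP⟩ := pev_growth p k hdeg
  have hone : ∀ x : E (k + 1), 1 + ‖x‖ ≤ (1 + ‖x‖) ^ k := fun x =>
    le_self_pow₀ (by linarith [norm_nonneg x]) (by omega)
  have hUb : ∀ x, |U x| ≤ (|B| + 1) * (1 + ‖x‖) ^ k := fun x => by
    have h2 := mul_le_mul_of_nonneg_left (hone x) (show 0 ≤ |B| + 1 by positivity)
    nlinarith [hB x, le_abs_self B, norm_nonneg x, abs_nonneg B]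
  have hcb : ∀ x : E (k + 1), |c| ≤ |c| * (1 + ‖x‖) ^ k := fun x =>
    le_mul_of_one_le_right (abs_nonneg c) (one_le_pow₀ (by linarith [norm_nonneg x]))
  refine ⟨fun x => pev p x + c - 2 * lam * U x, c, ?_, ?_, ?_⟩
  · refine isWeakSol_of hk (C := C1 + |c| + 2 * lam * (|B| + 1)) ?_ (fun x => ?_) ?_ fun φ => ?_
    · have := (pev_continuous p).measurable
      fun_prop
    · have h2 := mul_le_mul_of_nonneg_left (hUb x) (show 0 ≤ 2 * lam by positivity)
      have h3 : |2 * lam * U x| = 2 * lam * |U x| := by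
        rw [abs_mul, abs_of_pos (by positivity)]
      have h4 := abs_sub (pev p x + c) (2 * lam * U x)
      have h5 := abs_add_le (pev p x) c
      nlinarith [hP x, hcb x]
    · rw [funext hrhs]; exact i0.const_mul Λ
    · have j1 := int_mul_fracLap φ (pev_continuous p).aestronglyMeasurable hP
      have j2 := int_mul_fracLap φ (q := fun _ => c) aestronglyMeasurable_const hcb
      have j3 := int_mul_fracLap φ hUm.aestronglyMeasurable hUb
      have j4 : Integrable (fun x => (pev p x : ℂ) * fracLap φ x + (c : ℂ) * fracLap φ x) :=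
        j1.add j2
      have e1 : ∫ x, ((pev p x + c - 2 * lam * U x : ℝ) : ℂ) * fracLap φ x =
          ∫ x, ((pev p x : ℂ) * fracLap φ x + (c : ℂ) * fracLap φ x
            - (2 * lam : ℂ) * ((U x : ℂ) * fracLap φ x)) :=
        integral_congr_ae (Eventually.of_forall fun x => by push_cast; ring)
      have e2 : ∫ x, (c : ℂ) * fracLap φ x = 0 := by
        simpa [pev] using moment_poly φ (MvPolynomial.C c) (by simp)
      have e3 : ∫ x, ((Λ * ρ x : ℝ) : ℂ) * φ x = (Λ : ℂ) * ∫ y, (ρ y : ℂ) * φ y := by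
        rw [← integral_const_mul]
        exact integral_congr_ae (Eventually.of_forall fun x => by push_cast; ring)
      have e4 : (Λ : ℂ) = 2 * lam * gam (k + 1) := by
        have : Λ = 2 * lam * gam (k + 1) := by
          rw [hlam, lambdaOne_eq]; field_simp [(gam_pos k).ne']
        exact_mod_cast this
      simp only [hrhs]
      rw [e1, integral_sub j4 (j3.const_mul _), integral_add j1 j2, moment_poly φ p hdeg, e2,
        integral_const_mul, pot_pair hk ha hρ hU φ, e3, e4]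
      ring
  · rw [funext hrhs, integral_const_mul, h1, mul_one]
  · have h2 := ((pot_asymp (by omega) ha hρ h1 hU).const_mul (2 * lam)).const_sub c
    rw [mul_zero, sub_zero] at h2
    refine h2.congr fun x => ?_
    rw [hlam]; ring

end Pool.Agent.Lib.MP_d59d86_an
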