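import Pool.Agent.Lib.MP_d59d86_an.Four5
import Pool.Agent.Lib.MP_d59d86_an.Fixed3

/-! Rapidly decaying weights with a power singularity at the origin. -/

namespace Pool.Agent.Lib.MP_d59d86_an

open MeasureTheory Filter Topology Set

variable {n : ℕ}

/-- Rapid decay at infinity, singularity of order at most `a` at the origin. -/
structure Wt (a : ℝ) (w : E n → ℝ) : Prop where
  meas : Measurable w
  nonneg : ∀ y, 0 ≤ w y
  decay : ∀ K : ℕ, ∃ C, 0 ≤ C ∧ ∀ y, w y * (1 + ‖y‖) ^ K ≤ C * (1 + kb a y)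

variable {a : ℝ} {w : E n → ℝ}

theorem Wt.int (hw : Wt a w) (hn : 1 ≤ n) (ha : a < n) (j : ℕ) :
    Integrable (fun y => w y * (1 + ‖y‖) ^ j) := by
  obtain ⟨C, hC0, hC⟩ := hw.decay (j + (n + 1))
  have h1 : Integrable (fun y : E n => (1 + ‖y‖) ^ (-((n + 1 : ℕ) : ℝ))) :=
    integrable_one_add_norm (by simp)
  refine ((h1.add (kb_int hn ha)).const_mul C).mono'
    (Measurable.aestronglyMeasurable (hw.meas.mul (by fun_prop))) (Eventually.of_forall fun y => ?_)
  have h0 := hw.nonneg y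
  have h2 : (1 : ℝ) ≤ (1 + ‖y‖) ^ (n + 1) := one_le_pow₀ (by linarith [norm_nonneg y])
  have h3 := kb_nonneg a y
  rw [Real.norm_of_nonneg (by positivity), Pi.add_apply, Real.rpow_neg (by positivity),
    Real.rpow_natCast]
  have h4 := hC y
  rw [pow_add, ← mul_assoc, ← le_div_iff₀ (by positivity)] at h4
  refine h4.trans ?_
  rw [mul_div_assoc, add_div, one_div]
  gcongr
  exact div_le_self h3 h2

theorem Wt.int0 (hw : Wt a w) (hn : 1 ≤ n) (ha : a < n) : Integrable w := by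
  simpa using hw.int hn ha 0

theorem kb_mul_le {b : ℝ} (ha : 0 ≤ a) (hb : 0 ≤ b) {y z : E n} (hy : y ≠ 0) (hz : z ≠ 0) :
    kb a y * kb b z ≤ kb (a + b) y + kb (a + b) z := by
  have h1 := kb_nonneg (a + b) y
  have h2 := kb_nonneg (a + b) z
  by_cases hy1 : ‖y‖ < 1
  swap
  · have : kb a y = 0 := indicator_of_notMem (by simpa using hy1) _
    rw [this, zero_mul]; positivity
  by_cases hz1 : ‖z‖ < 1
  swap
  · have : kb b z = 0 := indicator_of_notMem (by simpa using hz1) _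
    rw [this, mul_zero]; positivity
  have hy0 := norm_pos_iff.2 hy
  have hz0 := norm_pos_iff.2 hz
  simp only [kb_of_lt _ hy1, kb_of_lt _ hz1] at h1 h2 ⊢
  rcases le_total ‖y‖ ‖z‖ with h | h
  · have h3 : ‖z‖ ^ (-b) ≤ ‖y‖ ^ (-b) := Real.rpow_le_rpow_of_nonpos hy0 h (by linarith)
    have h4 : ‖y‖ ^ (-(a + b)) = ‖y‖ ^ (-a) * ‖y‖ ^ (-b) := by
      rw [← Real.rpow_add hy0]; congr 1; ring
    have h5 := mul_le_mul_of_nonneg_left h3 (Real.rpow_nonneg hy0.le (-a))
    linarith
  · have h3 : ‖y‖ ^ (-a) ≤ ‖z‖ ^ (-a) := Real.rpow_le_rpow_of_nonpos hz0 h (by linarith)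
    have h4 : ‖z‖ ^ (-(a + b)) = ‖z‖ ^ (-a) * ‖z‖ ^ (-b) := by
      rw [← Real.rpow_add hz0]; congr 1; ring
    have h5 := mul_le_mul_of_nonneg_right h3 (Real.rpow_nonneg hz0.le (-b))
    linarith

theorem exp_log_le {b : ℝ} (hb : 0 ≤ b) (z : E n) :
    Real.exp (-b * Real.log ‖z‖) ≤ 1 + kb b z := by
  have h1 := kb_nonneg b z
  rcases (norm_nonneg z).eq_or_lt with h | h
  · rw [← h]; simpa using h1
  · rw [mul_comm, ← Real.rpow_def_of_pos h]
    rcases le_or_gt 1 ‖z‖ with h2 | h2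
    · linarith [Real.rpow_le_one_of_one_le_of_nonpos h2 (show -b ≤ 0 by linarith)]
    · rw [kb_of_lt _ h2]; linarith

theorem Wt.sing (hw : Wt a w) (hn : 1 ≤ n) (ha : 0 ≤ a) {b : ℝ} (hb : 0 ≤ b) (hab : a + b < n) :
    ∃ A, ∀ x, Integrable (fun y => w y * Real.exp (-b * Real.log ‖x - y‖)) ∧
      ∫ y, w y * Real.exp (-b * Real.log ‖x - y‖) ≤ A := by
  obtain ⟨C, hC0, hC⟩ := hw.decay 0
  simp only [pow_zero, mul_one] at hC
  have i0 := hw.int0 hn (by linarith)
  have i1 : Integrable (kb b : E n → ℝ) := kb_int hn (by linarith)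
  have i2 : Integrable (kb (a + b) : E n → ℝ) := kb_int hn hab
  have hne : Nontrivial (E n) := Module.nontrivial_of_finrank_pos (R := ℝ) (by rw [finrank_euclideanSpace_fin]; omega)
  have hae : ∀ z : E n, ∀ᵐ x : E n, x ≠ z := fun z => by simp [ae_iff]
  refine ⟨(∫ y, w y) + C * ((∫ y : E n, kb b y) + ((∫ y : E n, kb (a + b) y) +
    ∫ y : E n, kb (a + b) y)), fun x => ?_⟩
  have i3 : Integrable (fun y => kb (a + b) y + kb (a + b) (x - y)) := i2.add (i2.comp_sub_left x)
  have i4 : Integrable (fun y => kb b (x - y) + (kb (a + b) y + kb (a + b) (x - y))) :=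
    (i1.comp_sub_left x).add i3
  have i5 : Integrable (fun y => w y +
      C * (kb b (x - y) + (kb (a + b) y + kb (a + b) (x - y)))) := i0.add (i4.const_mul C)
  have hle : ∀ᵐ y : E n, w y * Real.exp (-b * Real.log ‖x - y‖) ≤ w y +
      C * (kb b (x - y) + (kb (a + b) y + kb (a + b) (x - y))) := by
    filter_upwards [hae 0, hae x] with y hy hyx
    have h1 := kb_mul_le ha hb hy (sub_ne_zero.2 hyx.symm)
    have h2 := mul_le_mul_of_nonneg_left (exp_log_le hb (x - y)) (hw.nonneg y)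
    have h3 := mul_le_mul_of_nonneg_right (hC y) (kb_nonneg b (x - y))
    have h4 := mul_le_mul_of_nonneg_left h1 hC0
    nlinarith
  have i6 : Integrable (fun y => w y * Real.exp (-b * Real.log ‖x - y‖)) := by
    refine i5.mono' (Measurable.aestronglyMeasurable (hw.meas.mul (by fun_prop))) ?_
    filter_upwards [hle] with y hy
    rwa [Real.norm_of_nonneg (mul_nonneg (hw.nonneg y) (Real.exp_pos _).le)]
  refine ⟨i6, (integral_mono_ae i6 i5 hle).trans (le_of_eq ?_)⟩
  rw [integral_add i0 (i4.const_mul C), integral_const_mul, integral_add (i1.comp_sub_left x) i3,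
    integral_add i2 (i2.comp_sub_left x), integral_sub_left_eq_self (kb b) volume x,
    integral_sub_left_eq_self (kb (a + b)) volume x]

theorem log_sub_le (x y : E n) :
    Real.log ‖x - y‖ ≤ Real.log (1 + ‖x‖) + Real.log (1 + ‖y‖) := by
  have hx := norm_nonneg x
  have hy := norm_nonneg y
  rw [← Real.log_mul (by positivity) (by positivity)]
  rcases (norm_nonneg (x - y)).eq_or_lt with h | h
  · rw [← h, Real.log_zero]; exact Real.log_nonneg (by nlinarith)
  · exact Real.log_le_log h (by nlinarith [norm_sub_le x y])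

theorem Wt.exists_rho (hw : Wt a w) (hn : 1 ≤ n) (ha : 0 ≤ a) (hpos : ∀ y, y ≠ 0 → 0 < w y)
    {β : ℝ} (hβ : 0 ≤ β) (hab : a + β < n) :
    ∃ (ρ U : E n → ℝ) (B Z : ℝ), Wt a ρ ∧ ∫ y, ρ y = 1 ∧ Measurable U ∧
      (∀ x, U x = ∫ y, Real.log ‖x - y‖ * ρ y) ∧ (∀ x, |U x| ≤ B + ‖x‖) ∧ 0 < Z ∧
      ∀ x, ρ x = w x * Real.exp (-(2 * β) * U x) / Z := by
  have hne : Nontrivial (E n) := Module.nontrivial_of_finrank_pos (R := ℝ) (by rw [finrank_euclideanSpace_fin]; omega)
  set μ : Measure (E n) := volume.withDensity fun y => ENNReal.ofReal (w y) with hμ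
  have hm : Measurable fun y => ENNReal.ofReal (w y) := hw.meas.ennreal_ofReal
  have hfin : ∀ᵐ y : E n, ENNReal.ofReal (w y) < ⊤ :=
    Eventually.of_forall fun _ => ENNReal.ofReal_lt_top
  have hint : ∀ g : E n → ℝ, Integrable g μ ↔ Integrable (fun y => w y * g y) := fun g => by
    rw [hμ, integrable_withDensity_iff_integrable_smul' hm hfin]
    simp only [ENNReal.toReal_ofReal (hw.nonneg _), smul_eq_mul]
  have hintg : ∀ g : E n → ℝ, ∫ y, g y ∂μ = ∫ y, w y * g y := fun g => by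
    rw [hμ, integral_withDensity_eq_integral_toReal_smul hm hfin]
    simp only [ENNReal.toReal_ofReal (hw.nonneg _), smul_eq_mul]
  haveI : IsFiniteMeasure μ :=
    isFiniteMeasure_withDensity_ofReal (hw.int0 hn (by linarith)).hasFiniteIntegral
  haveI : NeZero μ := ⟨fun h0 => by
    have h1 : (volume : Measure (E n)) ≪ μ := by
      refine withDensity_absolutelyContinuous' hm.aemeasurable ?_
      have : ∀ᵐ x : E n, x ≠ 0 := by simp [ae_iff]
      filter_upwards [this] with y hy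
      exact (ENNReal.ofReal_pos.2 (hpos y hy)).ne'
    rw [h0, Measure.absolutelyContinuous_zero_iff] at h1
    exact NeZero.ne _ h1⟩
  obtain ⟨A, hA⟩ := hw.sing hn ha (b := (β + (n - a)) / 2) (by linarith) (by linarith)
  have hexp : ∀ x : E n, Real.exp (Real.log (1 + ‖x‖)) = 1 + ‖x‖ := fun x =>
    Real.exp_log (by positivity)
  have hK : Ker μ (fun x y => Real.log ‖x - y‖) (fun x => Real.log (1 + ‖x‖))
      ((β + (n - a)) / 2) A :=
    { measL := by unfold Function.uncurry; fun_prop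
      symm := fun x y => by rw [norm_sub_rev]
      measl := by fun_prop
      l_nonneg := fun x => Real.log_nonneg (by linarith [norm_nonneg x])
      L_le := log_sub_le
      b_pos := by linarith
      int_exp := fun x => (hint _).2 (hA x).1
      bound := fun x => by rw [hintg]; exact (hA x).2
      int_l := by
        rw [hint]
        simpa [hexp] using hw.int hn (by linarith) 1 }
  obtain ⟨M, B, g, hg, hc, hfix⟩ := hK.exists_fixed hβ (by linarith)
  have hM : 0 ≤ M := (hg.nonneg 0).trans (hg.le 0)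
  refine ⟨fun y => w y * g y, pot μ (fun x y => Real.log ‖x - y‖) g, B,
    part μ β (pot μ (fun x y => Real.log ‖x - y‖) g),
    ⟨hw.meas.mul hg.meas, fun y => mul_nonneg (hw.nonneg y) (hg.nonneg y), fun K => ?_⟩,
    ?_, hc.meas, fun x => ?_, fun x => ?_, (hK.plow_pos hβ B).trans_le (hK.plow_le hβ hc),
    fun x => ?_⟩
  · obtain ⟨C, hC0, hC⟩ := hw.decay K
    refine ⟨M * C, by positivity, fun y => ?_⟩
    have h0 := hw.nonneg y
    calc w y * g y * (1 + ‖y‖) ^ K = g y * (w y * (1 + ‖y‖) ^ K) := by ring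
      _ ≤ M * (C * (1 + kb a y)) := mul_le_mul (hg.le y) (hC y) (by positivity) hM
      _ = _ := by ring
  · rw [← hintg, hg.one]
  · rw [pot, hintg]
    exact integral_congr_ae (Eventually.of_forall fun y => by ring)
  · have h1 := hc.lower x
    have h2 := hc.upper x
    have h3 : Real.log (1 + ‖x‖) ≤ ‖x‖ := by
      linarith [Real.log_le_sub_one_of_pos (show 0 < 1 + ‖x‖ by positivity)]
    rw [abs_le]
    constructor <;> linarith [norm_nonneg x]
  · simp only
    rw [hfix x, gibbs, mul_div_assoc]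

theorem wt_poly (hn : 1 ≤ n) (α : ℝ) (p : MvPolynomial (Fin n) ℝ)
    (hp : Tendsto (pev p) (cocompact (E n)) atBot) :
    Wt (max 0 (-(n * α))) (fun y : E n => Real.exp (n * pev p y) * ‖y‖ ^ (n * α)) := by
  have hc := pev_continuous p
  refine ⟨Measurable.mul (by fun_prop) (by fun_prop), fun y => by positivity, fun K => ?_⟩
  obtain ⟨K0, hK0⟩ := exists_nat_ge (n * α)
  obtain ⟨C, hC⟩ := loj p hp n (by exact_mod_cast hn) (K + K0)
  refine ⟨C, le_trans (by positivity) (hC 0), fun y => ?_⟩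
  have h0 := norm_nonneg y
  have h1 := kb_nonneg (max 0 (-(n * α))) y
  have h2 : (1 : ℝ) ≤ (1 + ‖y‖) ^ K0 := one_le_pow₀ (by linarith)
  have h3 : ‖y‖ ^ (n * α) ≤ (1 + ‖y‖) ^ K0 * (1 + kb (max 0 (-(n * α))) y) := by
    rcases h0.eq_or_lt with h | h
    · have : ‖y‖ ^ (n * α) ≤ 1 := by rw [← h]; exact Real.zero_rpow_le_one _
      nlinarith
    · rcases le_or_gt 1 ‖y‖ with h4 | h4
      · have h5 : ‖y‖ ^ (n * α) ≤ ‖y‖ ^ (K0 : ℝ) := Real.rpow_le_rpow_of_exponent_le h4 hK0
        rw [Real.rpow_natCast] at h5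
        have h6 : ‖y‖ ^ K0 ≤ (1 + ‖y‖) ^ K0 := pow_le_pow_left₀ h0 (by linarith) _
        nlinarith
      · have h5 : ‖y‖ ^ (n * α) ≤ kb (max 0 (-(n * α))) y := by
          rw [kb_of_lt _ h4]
          exact Real.rpow_le_rpow_of_exponent_ge h h4.le
            (by linarith [le_max_right 0 (-(n * α))])
        nlinarith
  calc Real.exp (n * pev p y) * ‖y‖ ^ (n * α) * (1 + ‖y‖) ^ K
      ≤ Real.exp (n * pev p y) * ((1 + ‖y‖) ^ K0 * (1 + kb (max 0 (-(n * α))) y)) *
        (1 + ‖y‖) ^ K := by gcongr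
    _ = (Real.exp (n * pev p y) * (1 + ‖y‖) ^ (K + K0)) * (1 + kb (max 0 (-(n * α))) y) := by ring
    _ ≤ _ := mul_le_mul_of_nonneg_right (hC y) (by positivity)

end Pool.Agent.Lib.MP_d59d86_an
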